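import Pool.Agent.Q50.FP.Ab2

/-!
# The Casimir class and the classes of algebraic cycles

`V` is the rational Tate module of an abelian variety over any finitely generated field. Endomorphisms
of `V` which annihilate the classes of algebraic cycles.
-/

set_option linter.unusedSectionVars false

namespace Pool.Agent.Q12.CasLie

open Module TensorProduct Filter Topology Pool.Agent.H204R3.SP Pool.Agent.H204R3.GP
  Pool.Agent.W516.KC Pool.Agent.W516.DR Pool.Agent.W516.FT Pool.Agent.Q50.FP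

noncomputable section

section span

variable {k V : Type} [Field k] [AddCommGroup V] [Module k V]

/-- What annihilates a set of forms annihilates its span. -/
theorem kills_of_span {κ : Type} [Fintype κ] [DecidableEq κ] {X : Module.End k V}
    {S : Set (MultilinearMap k (fun _ : κ => V) k)} (h : ∀ φ ∈ S, Kills X φ)
    {φ : MultilinearMap k (fun _ : κ => V) k} (hφ : φ ∈ Submodule.span k S) : Kills X φ := by
  induction hφ using Submodule.span_induction with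
  | mem x hx => exact h x hx
  | zero => intro v; simp
  | add a b _ _ ha hb =>
    intro v
    have h1 := ha v
    have h2 := hb v
    simp only [MultilinearMap.add_apply, Finset.sum_add_distrib]
    rw [h1, h2, add_zero]
  | smul c a _ ha =>
    intro v
    have h1 := ha v
    simp only [MultilinearMap.smul_apply, smul_eq_mul, ← Finset.mul_sum]
    rw [h1, mul_zero]

end span

variable {ℓ : ℕ} [hℓ : Fact ℓ.Prime] {V : Type} [AddCommGroup V] [Module ℚ_[ℓ] V]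
  [FiniteDimensional ℚ_[ℓ] V] {Γ : Type} [Group Γ] [TopologicalSpace Γ] [IsTopologicalGroup Γ]
  [CompactSpace Γ] (ρ : Representation ℚ_[ℓ] Γ V) (χ : Γ →* ℚ_[ℓ])
  (hρ : ∀ (v : V) (f : Dual ℚ_[ℓ] V), Continuous fun s => f (ρ s v)) (hχ : Continuous χ)
  (ω : V →ₗ[ℚ_[ℓ]] V →ₗ[ℚ_[ℓ]] ℚ_[ℓ]) (hωρ : ∀ s u v, ω (ρ s u) (ρ s v) = χ s * ω u v)
  (hnd : ∀ u, (∀ v, ω u v = 0) → u = 0) (hss : FiniteIndexSemisimple ρ)
  (S : ∀ m : ℕ, Set (MultilinearMap ℚ_[ℓ] (fun _ : Fin m × Fin 2 => V) ℚ_[ℓ]))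
  (hdiv : ∀ φ, IsTate ρ χ 1 φ → φ ∈ Submodule.span ℚ_[ℓ] (S 1))

include hωρ hdiv in
/-- An endomorphism which annihilates the classes of divisors is skew. -/
theorem skew_of_kills {Z : Module.End ℚ_[ℓ] V} (hZ : ∀ m, ∀ φ ∈ S m, Kills Z φ) :
    IsSkew ω Z := by
  have h1 : IsTate ρ χ 1 (one2 ω) := by
    refine ⟨⊤, inferInstance, fun s _ v => ?_⟩
    rw [one2_apply, one2_apply, hωρ, pow_one]
  exact (kills_one2 ω Z).1 (kills_of_span (hZ 1) (hdiv _ h1))

include hρ hχ hωρ hnd hdiv in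
/-- An endomorphism which annihilates the classes of divisors commutes with the endomorphisms of the
abelian variety. -/
theorem comm_of_kills {Z : Module.End ℚ_[ℓ] V} (hZ : ∀ m, ∀ φ ∈ S m, Kills Z φ)
    {P : Module.End ℚ_[ℓ] V} (hP : ∀ X ∈ lieT ρ χ, X * P = P * X) : Z * P = P * Z := by
  have hsk := skew_of_kills ρ χ ω hωρ S hdiv hZ
  have h1 : IsTate ρ χ 1 (one2 (ω.comp P)) := by
    refine tate_of_kills ρ χ hρ hχ _ fun X hX => ?_
    rw [kills_one2]
    intro u v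
    have h2 := lieT_sp ρ χ ω hωρ hX (P u) v
    have h3 := congrArg (fun f : Module.End ℚ_[ℓ] V => f u) (hP X hX)
    simp only [Module.End.mul_apply] at h3
    rw [LinearMap.comp_apply, LinearMap.comp_apply, ← h3]
    exact h2
  have h2 := (kills_one2 (ω.comp P) Z).1 (kills_of_span (hZ 1) (hdiv _ h1))
  ext u
  rw [← sub_eq_zero]
  apply hnd
  intro v
  have h3 := h2 u v
  have h4 := hsk (P u) v
  rw [LinearMap.comp_apply, LinearMap.comp_apply] at h3
  rw [map_sub, LinearMap.sub_apply, Module.End.mul_apply, Module.End.mul_apply]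
  linear_combination h4 - h3

include hρ hχ hωρ hnd hdiv in
/-- The decomposition of the endomorphisms which annihilate all classes of algebraic cycles. -/
theorem decompose (hsemi : Semi (lieT ρ χ))
    (hΘ : cas (lieT ρ χ) hsemi (lieT_br ρ χ) ω ∈ Submodule.span ℚ_[ℓ] (S 2))
    {Z : Module.End ℚ_[ℓ] V} (hZ : ∀ m, ∀ φ ∈ S m, Kills Z φ) :
    ∃ s ∈ der (lieT ρ χ), AlmostEquivariant ρ (Z - s) ∧
      ∀ P, AlmostEquivariant ρ P → (Z - s) * P = P * (Z - s) := by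
  have hcc : CommComm (lieT ρ χ) Z := fun P hP =>
    comm_of_kills ρ χ hρ hχ ω hωρ hnd S hdiv hZ hP
  obtain ⟨s, hs, hcen⟩ := decomp (lieT ρ χ) hsemi (lieT_br ρ χ) ω hnd
    (skew_of_kills ρ χ ω hωρ S hdiv hZ) (kills_of_span (hZ 2) hΘ) hcc
  refine ⟨s, hs, almost_of_comm ρ χ hρ hχ ω hωρ hnd hcen.1, fun P hP => hcen.2 P fun X hX => ?_⟩
  exact comm_of_almost ρ χ ω hωρ hnd hP hX

include hρ hχ hωρ hnd hdiv in
/-- The classes of algebraic cycles cut out the Lie algebra. -/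
theorem mem_lie (hsemi : Semi (lieT ρ χ))
    (hΘ : cas (lieT ρ χ) hsemi (lieT_br ρ χ) ω ∈ Submodule.span ℚ_[ℓ] (S 2))
    (hsym : ∀ e, AlmostEquivariant ρ e → (∀ P, AlmostEquivariant ρ P → e * P = P * e) →
      ∀ u v, ω (e u) v = ω u (e v))
    {Z : Module.End ℚ_[ℓ] V} (hZ : ∀ m, ∀ φ ∈ S m, Kills Z φ) : Z ∈ lieT ρ χ := by
  obtain ⟨s, hs, h1, h2⟩ := decompose ρ χ hρ hχ ω hωρ hnd S hdiv hsemi hΘ hZ
  have hs' : s ∈ lieT ρ χ := der_sub _ (lieT_br ρ χ) hs
  have h3 : Z - s = 0 := by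
    ext u
    rw [LinearMap.zero_apply]
    apply hnd
    intro v
    have h4 := hsym _ h1 h2 u v
    have h5 := skew_of_kills ρ χ ω hωρ S hdiv hZ u v
    have h6 := lieT_sp ρ χ ω hωρ hs' u v
    have h7 : ω ((Z - s) u) v + ω u ((Z - s) v) = 0 := by
      rw [LinearMap.sub_apply, LinearMap.sub_apply, map_sub, map_sub, LinearMap.sub_apply]
      linear_combination h5 - h6
    have h8 : (2 : ℚ_[ℓ]) * ω ((Z - s) u) v = 0 := by
      linear_combination h7 + h4
    have h9 : (2 : ℚ_[ℓ]) ≠ 0 := two_ne_zero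
    exact (mul_eq_zero.1 h8).resolve_left h9
  rw [sub_eq_zero.1 h3]
  exact hs'

end

section compact

variable {ℓ : ℕ} [hℓ : Fact ℓ.Prime] {V : Type} [AddCommGroup V] [Module ℚ_[ℓ] V]
  [FiniteDimensional ℚ_[ℓ] V] {Γ' : Type} [Group Γ'] [TopologicalSpace Γ'] [IsTopologicalGroup Γ']
  [CompactSpace Γ'] (ρ' : Representation ℚ_[ℓ] Γ' V) (χ' : Γ' →* ℚ_[ℓ])
  (hρ' : ∀ (v : V) (f : Dual ℚ_[ℓ] V), Continuous fun s => f (ρ' s v)) (hχ' : Continuous χ')

include hρ' hχ' in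
/-- A compact group which fixes the forms in `S` fixes, up to finite index, all forms which are
annihilated by the endomorphisms that annihilate `S`. -/
theorem fixes_of_kills
    (S : ∀ m : ℕ, Set (MultilinearMap ℚ_[ℓ] (fun _ : Fin m × Fin 2 => V) ℚ_[ℓ]))
    (hS : ∀ m, ∀ φ ∈ S m, IsTate ρ' χ' m φ) :
    ∃ Δ : Subgroup Γ', Δ.FiniteIndex ∧ ∀ s ∈ Δ, ∀ (m : ℕ)
      (φ : MultilinearMap ℚ_[ℓ] (fun _ : Fin m × Fin 2 => V) ℚ_[ℓ]),
      (∀ Z : Module.End ℚ_[ℓ] V, (∀ m', ∀ ψ ∈ S m', Kills Z ψ) → Kills Z φ) →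
      ∀ v, φ (fun j => ρ' s (v j)) = χ' s ^ m * φ v := by
  obtain ⟨Δ, hΔ, h⟩ := exists_logs_lieT ρ' χ' hρ' hχ'
  refine ⟨Δ, hΔ, fun s hs m φ hφ => ?_⟩
  obtain ⟨D, y, hD, hD'⟩ := h s hs
  exact hD' m φ (hφ D fun m' ψ hψ => hD m' ψ (hS m' ψ hψ))

end compact

end Pool.Agent.Q12.CasLie
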