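import Mathlib

set_option autoImplicit false

namespace Q12.Heis

/-- The three-dimensional Heisenberg algebra over the field with three elements. -/
def H : Type := Fin 3 → ZMod 3

instance : AddCommGroup H := inferInstanceAs (AddCommGroup (Fin 3 → ZMod 3))
instance : Module (ZMod 3) H := inferInstanceAs (Module (ZMod 3) (Fin 3 → ZMod 3))
instance : DecidableEq H := inferInstanceAs (DecidableEq (Fin 3 → ZMod 3))
instance : Fintype H := inferInstanceAs (Fintype (Fin 3 → ZMod 3))

theorem H.ext' {x y : H} (h : ∀ i, x i = y i) : x = y := funext h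

@[simp] theorem add_app (x y : H) (i : Fin 3) : (x + y) i = x i + y i := rfl
@[simp] theorem smul_app (a : ZMod 3) (x : H) (i : Fin 3) : (a • x) i = a * x i := rfl
@[simp] theorem zero_app (i : Fin 3) : (0 : H) i = 0 := rfl

def br (x y : H) : H := ![0, 0, x 0 * y 1 - x 1 * y 0]

@[simp] theorem br0 (x y : H) : br x y 0 = 0 := rfl
@[simp] theorem br1 (x y : H) : br x y 1 = 0 := rfl
@[simp] theorem br2 (x y : H) : br x y 2 = x 0 * y 1 - x 1 * y 0 := rfl

instance : Bracket H H := ⟨br⟩

theorem lie_def (x y : H) : ⁅x, y⁆ = br x y := rfl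

instance : LieRing H where
  add_lie x y z := by
    apply H.ext'; intro i; fin_cases i <;> simp [lie_def] <;> ring
  lie_add x y z := by
    apply H.ext'; intro i; fin_cases i <;> simp [lie_def] <;> ring
  lie_self x := by
    apply H.ext'; intro i; fin_cases i <;> simp [lie_def] <;> ring
  leibniz_lie x y z := by
    apply H.ext'; intro i; fin_cases i <;> simp [lie_def]

instance : LieAlgebra (ZMod 3) H where
  lie_smul a x y := by
    apply H.ext'; intro i; fin_cases i <;> simp [lie_def] <;> ring

/-- The `3`-map. -/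
def pm (v : H) : H := ![0, 0, v 2]

@[simp] theorem pm0 (x : H) : pm x 0 = 0 := rfl
@[simp] theorem pm1 (x : H) : pm x 1 = 0 := rfl
@[simp] theorem pm2 (x : H) : pm x 2 = x 2 := rfl

theorem pm_smul (a : ZMod 3) (x : H) : pm (a • x) = a ^ 3 • pm x := by
  have h3 : ∀ a : ZMod 3, a ^ 3 = a := by decide
  rw [h3]
  apply H.ext'; intro i; fin_cases i <;> simp

theorem pm_add (x y : H) : pm (x + y) = pm x + pm y := by
  apply H.ext'; intro i; fin_cases i <;> simp

theorem ad_cube (x y : H) : (LieAlgebra.ad (ZMod 3) H x ^ 3) y = ⁅pm x, y⁆ := by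
  simp only [pow_succ, pow_zero, one_mul, Module.End.mul_apply, LieAlgebra.ad_apply]
  apply H.ext'; intro i; fin_cases i <;> simp [lie_def]

end Q12.Heis
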