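import Pool.Agent.Q12.LocComm

/-!
Automorphisms and derivations of a bilinear product on a real vector space (commuting with a fixed
operator `J`), local exponential chart.
-/

open NormedSpace Filter Topology

namespace Q12.Loc

variable {V : Type*} [NormedAddCommGroup V] [NormedSpace ℝ V]

/-- invertible operators preserving the product `μ` and commuting with `J` -/
structure IsAut (μ : V →L[ℝ] V →L[ℝ] V) (J : V →L[ℝ] V) (h : V →L[ℝ] V) : Prop where
  unit : ∃ h' : V →L[ℝ] V, h * h' = 1 ∧ h' * h = 1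
  mul : ∀ x y, h (μ x y) = μ (h x) (h y)
  lin : ∀ x, h (J x) = J (h x)

/-- derivations of `μ` commuting with `J` -/
def der (μ : V →L[ℝ] V →L[ℝ] V) (J : V →L[ℝ] V) : Submodule ℝ (V →L[ℝ] V) where
  carrier := {a | (∀ x y, a (μ x y) = μ (a x) y + μ x (a y)) ∧ ∀ x, a (J x) = J (a x)}
  zero_mem' := ⟨fun x y => by simp, fun x => by simp⟩
  add_mem' := by
    rintro a b ⟨ha, ha'⟩ ⟨hb, hb'⟩
    refine ⟨fun x y => ?_, fun x => by simp [ha', hb']⟩
    simp only [add_apply, ha x y, hb x y, map_add]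
    abel
  smul_mem' := by
    rintro c a ⟨ha, ha'⟩
    refine ⟨fun x y => ?_, fun x => by simp [ha']⟩
    simp only [smul_apply, ha x y, map_smul, smul_add]

theorem mem_der {μ : V →L[ℝ] V →L[ℝ] V} {J a : V →L[ℝ] V} : a ∈ der μ J ↔
    (∀ x y, a (μ x y) = μ (a x) y + μ x (a y)) ∧ ∀ x, a (J x) = J (a x) := Iff.rfl

theorem comp_app {a b : V →L[ℝ] V} (h : a * b = 1) (x : V) : a (b x) = x := by
  have := congrArg (fun f : V →L[ℝ] V => f x) h
  simpa using this

theorem IsAut.inv {μ : V →L[ℝ] V →L[ℝ] V} {J h h' : V →L[ℝ] V} (H : IsAut μ J h)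
    (h1 : h * h' = 1) (h2 : h' * h = 1) : IsAut μ J h' where
  unit := ⟨h, h2, h1⟩
  mul x y := by
    have h3 := H.mul (h' x) (h' y)
    rw [comp_app h1, comp_app h1] at h3
    rw [← h3, comp_app h2]
  lin x := by
    have h3 := H.lin (h' x)
    rw [comp_app h1] at h3
    rw [← h3, comp_app h2]

theorem IsAut.comp {μ : V →L[ℝ] V →L[ℝ] V} {J h k : V →L[ℝ] V} (H : IsAut μ J h)
    (K : IsAut μ J k) : IsAut μ J (h * k) where
  unit := by
    obtain ⟨h', h1, h2⟩ := H.unit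
    obtain ⟨k', k1, k2⟩ := K.unit
    refine ⟨k' * h', ?_, ?_⟩
    · calc h * k * (k' * h') = h * (k * k') * h' := by simp only [mul_assoc]
        _ = 1 := by rw [k1, mul_one, h1]
    · calc k' * h' * (h * k) = k' * (h' * h) * k := by simp only [mul_assoc]
        _ = 1 := by rw [h2, mul_one, k2]
  mul x y := by
    simp only [mul_apply_eq_comp, K.mul, H.mul]
  lin x := by
    simp only [mul_apply_eq_comp, K.lin, H.lin]

theorem isAut_one (μ : V →L[ℝ] V →L[ℝ] V) (J : V →L[ℝ] V) : IsAut μ J 1 where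
  unit := ⟨1, by simp, by simp⟩
  mul x y := by simp
  lin x := by simp

theorem conj_der {μ : V →L[ℝ] V →L[ℝ] V} {J h h' a : V →L[ℝ] V} (H : IsAut μ J h)
    (h1 : h * h' = 1) (h2 : h' * h = 1) (ha : a ∈ der μ J) : h * a * h' ∈ der μ J := by
  have H' := H.inv h1 h2
  obtain ⟨ha1, ha2⟩ := mem_der.1 ha
  refine mem_der.2 ⟨fun x y => ?_, fun x => ?_⟩
  · simp only [mul_apply_eq_comp]
    rw [H'.mul, ha1, map_add, H.mul, H.mul, comp_app h1, comp_app h1]
  · simp only [mul_apply_eq_comp]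
    rw [H'.lin, ha2, H.lin]

theorem orb_le_map {μ : V →L[ℝ] V →L[ℝ] V} {J h : V →L[ℝ] V} (H : IsAut μ J h) (x : V) :
    orb (der μ J) (h x) ≤ (orb (der μ J) x).map (h : V →ₗ[ℝ] V) := by
  intro y hy
  obtain ⟨D, hD, rfl⟩ := mem_orb.1 hy
  obtain ⟨h', h1, h2⟩ := H.unit
  refine Submodule.mem_map.2 ⟨h' (D (h x)), mem_orb.2 ⟨h' * D * h, ?_, by simp⟩, ?_⟩
  · exact conj_der (H.inv h1 h2) h2 h1 hD
  · exact comp_app h1 _

theorem finrank_orb_le [FiniteDimensional ℝ V] {μ : V →L[ℝ] V →L[ℝ] V} {J h : V →L[ℝ] V}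
    (H : IsAut μ J h) (x : V) :
    Module.finrank ℝ (orb (der μ J) (h x)) ≤ Module.finrank ℝ (orb (der μ J) x) :=
  (Submodule.finrank_mono (orb_le_map H x)).trans (Submodule.finrank_map_le _ _)

section chart

theorem Lc_mul {E F : Type*} [NormedAddCommGroup E] [NormedSpace ℝ E]
    [NormedAddCommGroup F] [NormedSpace ℝ F] (S T : F →L[ℝ] F) :
    Lc E F (S * T) = Lc E F S * Lc E F T := by
  ext β x
  simp [Lc_apply]

/-- small elements with exponential an automorphism are derivations -/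
theorem chart [CompleteSpace V] (μ : V →L[ℝ] V →L[ℝ] V) (J : V →L[ℝ] V) :
    ∃ δ > 0, ∀ a : V →L[ℝ] V, ‖a‖ < δ → IsAut μ J (exp a) → a ∈ der μ J := by
  obtain ⟨δ₁, hδ₁, h₁⟩ := intertwine_of_exp V V
  obtain ⟨δ₂, hδ₂, h₂⟩ := fixed_of_exp3
    (E := V →L[ℝ] V →L[ℝ] V) (A1 := V →L[ℝ] V)
    ((Lc V (V →L[ℝ] V)).comp (Lc V V)) (Rc V (V →L[ℝ] V))
    ((Lc V (V →L[ℝ] V)).comp (Rc V V))
    (fun a n => by
      rw [ContinuousLinearMap.comp_apply, Lc_pow, Lc_pow, ContinuousLinearMap.comp_apply])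
    (fun a n => Rc_pow a n)
    (fun a n => by
      rw [ContinuousLinearMap.comp_apply, Rc_pow, Lc_pow, ContinuousLinearMap.comp_apply])
    (fun a b => comm_LRc _ _)
    (fun a b => by
      rw [ContinuousLinearMap.comp_apply, ContinuousLinearMap.comp_apply]
      unfold Commute SemiconjBy
      rw [← Lc_mul, ← Lc_mul]
      congr 1)
    (fun a b => (comm_LRc _ _).symm)
  refine ⟨min δ₁ δ₂, lt_min hδ₁ hδ₂, fun a ha H => ?_⟩
  have ha1 := lt_of_lt_of_le ha (min_le_left _ _)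
  have ha2 := lt_of_lt_of_le ha (min_le_right _ _)
  refine mem_der.2 ⟨fun x y => ?_, fun x => ?_⟩
  · have h3 := h₂ a μ ha2 ?_
    · have h4 := congrArg (fun f : V →L[ℝ] V →L[ℝ] V => f x y) h3
      exact h4
    · ext x y
      change exp a (μ (exp (-a) x) (exp (-a) y)) = μ x y
      have h5 := exp_mul_exp_neg a
      rw [H.mul, comp_app h5, comp_app h5]
  · have h3 := h₁ a a J ha1 ha1 ?_
    · exact congrArg (fun f : V →L[ℝ] V => f x) h3
    · ext x
      exact H.lin x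

/-- automorphisms close to `1` are exponentials of small derivations -/
theorem chart' [CompleteSpace V] (μ : V →L[ℝ] V →L[ℝ] V) (J : V →L[ℝ] V) {δ : ℝ} (hδ : 0 < δ) :
    ∀ᶠ h in 𝓝 (1 : V →L[ℝ] V), IsAut μ J h → ∃ a ∈ der μ J, ‖a‖ < δ ∧ exp a = h := by
  obtain ⟨δ', hδ', H⟩ := chart μ J
  have h1 : HasStrictFDerivAt (exp : (V →L[ℝ] V) → (V →L[ℝ] V))
      ((ContinuousLinearEquiv.refl ℝ (V →L[ℝ] V) : (V →L[ℝ] V) →L[ℝ] (V →L[ℝ] V))) 0 := by
    have := hasStrictFDerivAt_exp_zero (𝕂 := ℝ) (𝔸 := V →L[ℝ] V)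
    exact this
  have h2 := h1.map_nhds_eq_of_equiv
  rw [exp_zero] at h2
  rw [← h2, eventually_map]
  have h3 : ∀ᶠ a in 𝓝 (0 : V →L[ℝ] V), ‖a‖ < min δ δ' := by
    have : Tendsto (fun a : V →L[ℝ] V => ‖a‖) (𝓝 0) (𝓝 0) := by
      simpa using (continuous_norm.tendsto (0 : V →L[ℝ] V))
    exact this.eventually (gt_mem_nhds (lt_min hδ hδ'))
  filter_upwards [h3] with a ha hA
  exact ⟨a, H a (lt_of_lt_of_le ha (min_le_right _ _)) hA, lt_of_lt_of_le ha (min_le_left _ _), rfl⟩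

end chart

end Q12.Loc
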