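import Mathlib

/-!
Derivations, automorphisms, local derivations and local automorphisms of a finite-dimensional
algebra `A` over `𝕜 = ℝ` or `ℂ`. The product is an arbitrary bilinear map `m`; the norm on `A` only
serves to speak about the (unique) vector space topology of `End A`.
-/

namespace Q12.LocDefs

/-- `D` is a derivation of the algebra `A` with product `m x y`. -/
def IsDerivation {𝕜 A : Type*} [RCLike 𝕜] [NormedAddCommGroup A] [NormedSpace 𝕜 A]
    (m : A →ₗ[𝕜] A →ₗ[𝕜] A) (D : A →L[𝕜] A) : Prop :=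
  ∀ x y : A, D (m x y) = m (D x) y + m x (D y)

/-- `Δ` is a local derivation of the algebra `A` with product `m x y`. -/
def IsLocalDerivation {𝕜 A : Type*} [RCLike 𝕜] [NormedAddCommGroup A] [NormedSpace 𝕜 A]
    (m : A →ₗ[𝕜] A →ₗ[𝕜] A) (Δ : A →L[𝕜] A) : Prop :=
  ∀ x : A, ∃ D : A →L[𝕜] A, IsDerivation m D ∧ Δ x = D x

/-- `ψ` is an automorphism of the algebra `A` with product `m x y`. -/
def IsAutomorphism {𝕜 A : Type*} [RCLike 𝕜] [NormedAddCommGroup A] [NormedSpace 𝕜 A]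
    (m : A →ₗ[𝕜] A →ₗ[𝕜] A) (ψ : A →L[𝕜] A) : Prop :=
  Function.Bijective ψ ∧ ∀ x y : A, ψ (m x y) = m (ψ x) (ψ y)

/-- `φ` is a local automorphism of the algebra `A` with product `m x y`. -/
def IsLocalAutomorphism {𝕜 A : Type*} [RCLike 𝕜] [NormedAddCommGroup A] [NormedSpace 𝕜 A]
    (m : A →ₗ[𝕜] A →ₗ[𝕜] A) (φ : A →L[𝕜] A) : Prop :=
  ∀ x : A, ∃ ψ : A →L[𝕜] A, IsAutomorphism m ψ ∧ φ x = ψ x

end Q12.LocDefs
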