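import Pool.Agent.Q12.LocSup
import Pool.Agent.Q12.LocDefs

/-!
Passage from algebras over `𝕜 = ℝ` or `ℂ` to real vector spaces with an operator `J`.
-/

open NormedSpace Filter Topology

namespace Q12.LocBridge

open Q12.Loc Q12.LocDefs

section real

variable {𝕜 A : Type*} [RCLike 𝕜] [NormedAddCommGroup A] [NormedSpace 𝕜 A]
    [NormedSpace ℝ A] [IsScalarTower ℝ 𝕜 A] [FiniteDimensional ℝ A]

/-- multiplication by `I` as a real operator -/
noncomputable def Jop (𝕜 A : Type*) [RCLike 𝕜] [NormedAddCommGroup A] [NormedSpace 𝕜 A]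
    [NormedSpace ℝ A] [IsScalarTower ℝ 𝕜 A] : A →L[ℝ] A :=
  (((RCLike.I : 𝕜) • (1 : A →L[𝕜] A)).restrictScalars ℝ)

omit [FiniteDimensional ℝ A] in
theorem Jop_apply (x : A) : Jop 𝕜 A x = (RCLike.I : 𝕜) • x := rfl

/-- the product as a continuous real bilinear map -/
noncomputable def mulR (m : A →ₗ[𝕜] A →ₗ[𝕜] A) : A →L[ℝ] A →L[ℝ] A :=
  LinearMap.toContinuousLinearMap
    { toFun := fun x => LinearMap.toContinuousLinearMap ((m x).restrictScalars ℝ)
      map_add' := fun x y => by ext z; simp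
      map_smul' := fun c x => by
        ext z
        change m (c • x) z = c • m x z
        rw [← algebraMap_smul 𝕜 c x, map_smul, LinearMap.smul_apply, algebraMap_smul] }

theorem mulR_apply (m : A →ₗ[𝕜] A →ₗ[𝕜] A) (x y : A) : mulR m x y = m x y := rfl

omit [FiniteDimensional ℝ A] in
theorem smul_decomp (c : 𝕜) (x : A) :
    c • x = (RCLike.re c : ℝ) • x + (RCLike.im c : ℝ) • ((RCLike.I : 𝕜) • x) := by
  conv_lhs => rw [← RCLike.re_add_im c]
  rw [add_smul, mul_smul, ← algebraMap_smul 𝕜 (RCLike.re c : ℝ) x,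
    ← algebraMap_smul 𝕜 (RCLike.im c : ℝ) ((RCLike.I : 𝕜) • x)]

/-- real operators commuting with `I` are `𝕜`-linear -/
noncomputable def upgrade (f : A →L[ℝ] A) (hf : ∀ x, f (Jop 𝕜 A x) = Jop 𝕜 A (f x)) :
    A →L[𝕜] A :=
  { toFun := f
    map_add' := map_add f
    map_smul' := fun c x => by
      rw [smul_decomp c x, map_add, map_smul, map_smul]
      have h := hf x
      rw [Jop_apply, Jop_apply] at h
      rw [h, RingHom.id_apply, smul_decomp c (f x)]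
    cont := f.continuous }

omit [FiniteDimensional ℝ A] in
theorem upgrade_apply (f : A →L[ℝ] A) (hf : ∀ x, f (Jop 𝕜 A x) = Jop 𝕜 A (f x)) (x : A) :
    upgrade f hf x = f x := rfl

omit [FiniteDimensional ℝ A] in
theorem restrict_J (D : A →L[𝕜] A) (x : A) :
    (D.restrictScalars ℝ) (Jop 𝕜 A x) = Jop 𝕜 A ((D.restrictScalars ℝ) x) := by
  rw [Jop_apply, Jop_apply]
  exact map_smul D _ _

theorem locDer_iff (m : A →ₗ[𝕜] A →ₗ[𝕜] A) (X : A →L[𝕜] A) :
    IsLocalDerivation m X ↔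
      ∀ x, (X.restrictScalars ℝ) x ∈ orb (der (mulR m) (Jop 𝕜 A)) x := by
  constructor
  · intro h x
    obtain ⟨D, hD, hx⟩ := h x
    exact mem_orb.2 ⟨D.restrictScalars ℝ, mem_der.2 ⟨fun x y => hD x y, restrict_J D⟩, hx.symm⟩
  · intro h x
    obtain ⟨D, hD, hx⟩ := mem_orb.1 (h x)
    obtain ⟨h1, h2⟩ := mem_der.1 hD
    exact ⟨upgrade D h2, fun x y => h1 x y, hx.symm⟩

theorem isAut_iff (m : A →ₗ[𝕜] A →ₗ[𝕜] A) (ψ : A →L[𝕜] A) :
    IsAutomorphism m ψ ↔ IsAut (mulR m) (Jop 𝕜 A) (ψ.restrictScalars ℝ) := by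
  constructor
  · rintro ⟨h1, h2⟩
    refine ⟨?_, fun x y => h2 x y, restrict_J ψ⟩
    let e : A ≃ₗ[ℝ] A := LinearEquiv.ofBijective
      ((ψ.restrictScalars ℝ : A →L[ℝ] A) : A →ₗ[ℝ] A) h1
    refine ⟨LinearMap.toContinuousLinearMap (e.symm : A →ₗ[ℝ] A), ?_, ?_⟩
    · ext x
      exact e.apply_symm_apply x
    · ext x
      exact e.symm_apply_apply x
  · intro h
    refine ⟨?_, fun x y => h.mul x y⟩
    obtain ⟨h', e1, e2⟩ := h.unit
    exact ⟨Function.LeftInverse.injective (g := h') (fun x => comp_app e2 x),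
      Function.RightInverse.surjective (g := h') (fun x => comp_app e1 x)⟩

theorem locAut_iff (m : A →ₗ[𝕜] A →ₗ[𝕜] A) (φ : A →L[𝕜] A) :
    IsLocalAutomorphism m φ ↔
      ∀ x, ∃ h, IsAut (mulR m) (Jop 𝕜 A) h ∧ (φ.restrictScalars ℝ) x = h x := by
  constructor
  · intro h x
    obtain ⟨ψ, hψ, hx⟩ := h x
    exact ⟨ψ.restrictScalars ℝ, (isAut_iff m ψ).1 hψ, hx⟩
  · intro h x
    obtain ⟨ψ, hψ, hx⟩ := h x
    exact ⟨upgrade ψ hψ.lin, (isAut_iff m _).2 hψ, hx⟩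

theorem exp_restrict (X : A →L[𝕜] A) (t : ℝ) (x : A) :
    ((exp ((t : 𝕜) • X)).restrictScalars ℝ) x = exp (t • (X.restrictScalars ℝ)) x := by
  have _ := FiniteDimensional.complete ℝ A
  have h1 := (exp_series_hasSum_exp' (𝕂 := 𝕜) ((t : 𝕜) • X)).mapL
    (ContinuousLinearMap.apply 𝕜 A x)
  have h2 := (exp_series_hasSum_exp' (𝕂 := ℝ) (t • (X.restrictScalars ℝ))).mapL
    (ContinuousLinearMap.apply ℝ A x)
  have hpow : ∀ (n : ℕ), ((((t : 𝕜) • X) ^ n : A →L[𝕜] A) x) =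
      ((t • (X.restrictScalars ℝ)) ^ n : A →L[ℝ] A) x := by
    intro n
    induction n with
    | zero => simp
    | succ n ih =>
      rw [pow_succ', pow_succ', mul_apply_eq_comp, mul_apply_eq_comp, ih]
      simp only [smul_apply, ContinuousLinearMap.coe_restrictScalars']
      exact algebraMap_smul 𝕜 t _
  have h3 : (fun n : ℕ => (ContinuousLinearMap.apply 𝕜 A x)
      (((n.factorial : 𝕜)⁻¹) • ((t : 𝕜) • X) ^ n)) =
      (fun n : ℕ => (ContinuousLinearMap.apply ℝ A x)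
      (((n.factorial : ℝ)⁻¹) • (t • (X.restrictScalars ℝ)) ^ n)) := by
    funext n
    simp only [ContinuousLinearMap.apply_apply, smul_apply]
    rw [hpow, ← algebraMap_smul 𝕜 ((n.factorial : ℝ)⁻¹)]
    simp
  rw [h3] at h1
  exact h1.unique h2

theorem main_real (m : A →ₗ[𝕜] A →ₗ[𝕜] A) (X : A →L[𝕜] A) :
    (∀ t : ℝ, IsLocalAutomorphism m (exp ((t : 𝕜) • X))) ↔ IsLocalDerivation m X := by
  rw [locDer_iff]
  constructor
  · intro h x
    refine locDer_of_locAut (fun t x => ?_) x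
    obtain ⟨h', H, hx⟩ := (locAut_iff m _).1 (h t) x
    exact ⟨h', H, by rw [← exp_restrict]; exact hx⟩
  · intro h t
    rw [locAut_iff]
    intro x
    obtain ⟨h', H, hx⟩ := locAut_of_locDer (mulR m) (Jop 𝕜 A) h t x
    exact ⟨h', H, by rw [exp_restrict]; exact hx⟩

theorem comm_real (m : A →ₗ[𝕜] A →ₗ[𝕜] A) (S T : A →L[𝕜] A) (hS : IsLocalDerivation m S)
    (hT : IsLocalDerivation m T) : IsLocalDerivation m (S * T - T * S) := by
  rw [locDer_iff] at hS hT ⊢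
  intro x
  refine local_comm (der (mulR m) (Jop 𝕜 A)) ?_ hS hT x
  rintro a ha b hb
  obtain ⟨ha1, ha2⟩ := mem_der.1 ha
  obtain ⟨hb1, hb2⟩ := mem_der.1 hb
  refine mem_der.2 ⟨fun x y => ?_, fun x => ?_⟩
  · simp only [sub_apply, mul_apply_eq_comp, ha1, hb1, map_add, map_sub]
    abel
  · simp only [sub_apply, mul_apply_eq_comp, ha2, hb2, map_sub]

end real

theorem main {𝕜 A : Type*} [RCLike 𝕜] [NormedAddCommGroup A] [NormedSpace 𝕜 A]
    [FiniteDimensional 𝕜 A] (m : A →ₗ[𝕜] A →ₗ[𝕜] A) (X : A →L[𝕜] A) :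
    (∀ t : ℝ, IsLocalAutomorphism m (exp ((t : 𝕜) • X))) ↔ IsLocalDerivation m X := by
  let _ : NormedSpace ℝ A := NormedSpace.restrictScalars ℝ 𝕜 A
  have _ : IsScalarTower ℝ 𝕜 A := IsScalarTower.restrictScalars ℝ 𝕜 A
  have _ : FiniteDimensional ℝ A := FiniteDimensional.trans ℝ 𝕜 A
  exact main_real m X

theorem comm {𝕜 A : Type*} [RCLike 𝕜] [NormedAddCommGroup A] [NormedSpace 𝕜 A]
    [FiniteDimensional 𝕜 A] (m : A →ₗ[𝕜] A →ₗ[𝕜] A) (S T : A →L[𝕜] A)
    (hS : IsLocalDerivation m S) (hT : IsLocalDerivation m T) :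
    IsLocalDerivation m (S * T - T * S) := by
  let _ : NormedSpace ℝ A := NormedSpace.restrictScalars ℝ 𝕜 A
  have _ : IsScalarTower ℝ 𝕜 A := IsScalarTower.restrictScalars ℝ 𝕜 A
  have _ : FiniteDimensional ℝ A := FiniteDimensional.trans ℝ 𝕜 A
  exact comm_real m S T hS hT

end Q12.LocBridge
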