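import Pool.Agent.Q12.LocExp

/-!
The set of operators that are locally in a Lie algebra of operators is closed under commutators.
-/

open NormedSpace Filter Topology

namespace Q12.Loc

variable {V : Type*} [NormedAddCommGroup V] [NormedSpace ℝ V] [FiniteDimensional ℝ V]

/-- the subspace `g x` -/
noncomputable def orb (g : Submodule ℝ (V →L[ℝ] V)) (x : V) : Submodule ℝ V :=
  g.map ((ContinuousLinearMap.apply ℝ V x : (V →L[ℝ] V) →L[ℝ] V) : (V →L[ℝ] V) →ₗ[ℝ] V)

omit [FiniteDimensional ℝ V] in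
theorem mem_orb {g : Submodule ℝ (V →L[ℝ] V)} {x y : V} : y ∈ orb g x ↔ ∃ D ∈ g, D x = y := by
  simp [orb, Submodule.mem_map]

theorem deriv_mem {W : Submodule ℝ V} {φ : ℝ → V} {φ' : V} (h : HasDerivAt φ φ' 0)
    (hφ : ∀ t, φ t ∈ W) : φ' ∈ W := by
  have hcl : IsClosed (W : Set V) := W.closed_of_finiteDimensional
  have h1 := hasDerivAt_iff_tendsto_slope.1 h
  refine hcl.mem_of_tendsto h1 (Eventually.of_forall fun t => ?_)
  rw [slope_def_module]
  exact W.smul_mem _ (W.sub_mem (hφ _) (hφ _))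

theorem local_ad (g : Submodule ℝ (V →L[ℝ] V)) (hg : ∀ a ∈ g, ∀ b ∈ g, a * b - b * a ∈ g)
    {S : V →L[ℝ] V} (hS : ∀ x, S x ∈ orb g x) {A : V →L[ℝ] V} (hA : A ∈ g) (x : V) :
    S (A x) - A (S x) ∈ orb g x := by
  have _ := FiniteDimensional.complete ℝ V
  have hcl : IsClosed (g : Set (V →L[ℝ] V)) := g.closed_of_finiteDimensional
  set φ : ℝ → V := fun t => exp (t • (-A)) (S (exp (t • A) x)) with hφ
  have hmem : ∀ t, φ t ∈ orb g x := by
    intro t
    obtain ⟨B, hB, hB'⟩ := mem_orb.1 (hS (exp (t • A) x))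
    refine mem_orb.2 ⟨exp (t • (-A)) * B * exp (-(t • (-A))), ?_, ?_⟩
    · exact conj_mem g hcl (t • (-A)) (fun b hb => hg _ (g.smul_mem _ (g.neg_mem hA)) _ hb) B hB
    · simp only [hφ, smul_neg, neg_neg]
      rw [← hB']
      simp
  have hd : HasDerivAt φ (S (A x) - A (S x)) 0 := by
    have h1 : HasDerivAt (fun t : ℝ => exp (t • A)) (exp ((0:ℝ) • A) * A) 0 :=
      hasDerivAt_exp_smul_const (𝕂 := ℝ) A 0
    have h2 : HasDerivAt (fun t : ℝ => exp (t • (-A))) (exp ((0:ℝ) • (-A)) * (-A)) 0 :=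
      hasDerivAt_exp_smul_const (𝕂 := ℝ) (-A) 0
    have h3 : HasDerivAt (fun t : ℝ => S (exp (t • A) x)) (S (A x)) 0 := by
      have h4 := (h1.clm_apply (hasDerivAt_const (0:ℝ) x))
      have h5 := S.hasFDerivAt.comp_hasDerivAt (0:ℝ) h4
      simpa [Function.comp_def] using h5
    have h6 := h2.clm_apply h3
    have h7 : (exp ((0:ℝ) • (-A)) * (-A)) (S (exp ((0:ℝ) • A) x)) + exp ((0:ℝ) • (-A)) (S (A x))
        = S (A x) - A (S x) := by
      simp [sub_eq_add_neg, add_comm]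
    rw [h7] at h6
    exact h6
  exact deriv_mem hd hmem

/-- Operators locally in `g` are closed under commutators. -/
theorem local_comm (g : Submodule ℝ (V →L[ℝ] V)) (hg : ∀ a ∈ g, ∀ b ∈ g, a * b - b * a ∈ g)
    {S T : V →L[ℝ] V} (hS : ∀ x, S x ∈ orb g x) (hT : ∀ x, T x ∈ orb g x) (x : V) :
    S (T x) - T (S x) ∈ orb g x := by
  obtain ⟨B, hB, hB'⟩ := mem_orb.1 (hS x)
  obtain ⟨A, hA, hA'⟩ := mem_orb.1 (hT x)
  have h1 := local_ad g hg hS hA x
  have h2 := local_ad g hg hT hB x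
  have h3 : (A * B - B * A) x ∈ orb g x := mem_orb.2 ⟨_, hg A hA B hB, rfl⟩
  have h4 := (orb g x).add_mem ((orb g x).sub_mem h1 h2) h3
  have h5 : S (A x) - A (S x) - (T (B x) - B (T x)) + (A * B - B * A) x
      = S (T x) - T (S x) := by
    simp only [sub_apply, mul_apply_eq_comp]
    rw [hB', hA', ← hB', ← hA']
    abel
  rw [h5] at h4
  exact h4

end Q12.Loc
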