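import Mathlib

/-!
Exponentials of operators on a real normed space, intertwining lemmas.
-/

open NormedSpace Filter Topology

namespace Q12.Loc

section general

variable {𝔸 𝔹 : Type*} [NormedRing 𝔸] [NormedAlgebra ℝ 𝔸] [CompleteSpace 𝔸]
  [NormedRing 𝔹] [NormedAlgebra ℝ 𝔹] [CompleteSpace 𝔹]

/-- A continuous linear map compatible with powers of `a` sends `exp a` to `exp`. -/
theorem map_exp_pow (Φ : 𝔸 →L[ℝ] 𝔹) (a : 𝔸) (h : ∀ n : ℕ, Φ (a ^ n) = (Φ a) ^ n) :
    Φ (exp a) = exp (Φ a) := by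
  have h1 := (exp_series_hasSum_exp' (𝕂 := ℝ) a).mapL Φ
  have h2 := exp_series_hasSum_exp' (𝕂 := ℝ) (Φ a)
  have h3 : (fun n : ℕ => Φ (((n.factorial : ℝ)⁻¹) • a ^ n)) =
      fun n : ℕ => ((n.factorial : ℝ)⁻¹) • (Φ a) ^ n := by
    funext n
    rw [map_smul, h]
  rw [h3] at h1
  exact h1.unique h2

theorem exp_mul_exp_neg (S : 𝔸) : (exp S) * (exp (-S)) = 1 := by
  let _ : NormedAlgebra ℚ 𝔸 := .restrictScalars ℚ ℝ _
  have h := exp_add_of_commute (x := S) (y := -S) (Commute.neg_right rfl)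
  rw [← h]
  simp

theorem exp_neg_mul_exp (S : 𝔸) : (exp (-S)) * (exp S) = 1 := by
  let _ : NormedAlgebra ℚ 𝔸 := .restrictScalars ℚ ℝ _
  have h := exp_add_of_commute (x := -S) (y := S) (Commute.neg_left rfl)
  rw [← h]
  simp

end general

section ops

variable {E : Type*} [NormedAddCommGroup E] [NormedSpace ℝ E] [CompleteSpace E]

/-- Lemma A: for small `T`, `exp T v - v` is close to `T v` relative to `T v`. -/
theorem exp_sub_bound {ε : ℝ} (hε : 0 < ε) : ∃ δ > 0, ∀ T : E →L[ℝ] E, ‖T‖ < δ → ∀ v : E,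
    ‖exp T v - v - T v‖ ≤ ε * ‖T v‖ := by
  let _ : NormedAlgebra ℚ (E →L[ℝ] E) := .restrictScalars ℚ ℝ _
  have hc : ContinuousAt (exp : (E →L[ℝ] E) → (E →L[ℝ] E)) 0 := exp_continuous.continuousAt
  rw [Metric.continuousAt_iff] at hc
  obtain ⟨δ, hδ, h⟩ := hc ε hε
  refine ⟨δ, hδ, fun T hT v => ?_⟩
  have hd : ∀ s ∈ Set.Icc (0:ℝ) 1, HasDerivWithinAt (fun s : ℝ => exp (s • T) v - s • T v)
      (exp (s • T) (T v) - T v) (Set.Icc (0:ℝ) 1) s := by
    intro s _
    have h1 := (hasDerivAt_exp_smul_const (𝕂 := ℝ) T s)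
    have h2 : HasDerivAt (fun s : ℝ => exp (s • T) v) ((exp (s • T) * T) v) s := by
      have := h1.clm_apply (hasDerivAt_const s v)
      simpa using this
    have h3 : HasDerivAt (fun s : ℝ => s • T v) (T v) s := by
      have := (hasDerivAt_id s).smul_const (T v)
      simpa using this
    exact (h2.sub h3).hasDerivWithinAt
  have hb : ∀ s ∈ Set.Ico (0:ℝ) 1, ‖exp (s • T) (T v) - T v‖ ≤ ε * ‖T v‖ := by
    intro s hs
    have h1 : dist (s • T) (0 : E →L[ℝ] E) < δ := by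
      rw [dist_zero_right, norm_smul]
      calc ‖s‖ * ‖T‖ ≤ 1 * ‖T‖ := by
            gcongr
            rw [Real.norm_eq_abs, abs_of_nonneg hs.1]
            exact hs.2.le
        _ < δ := by simpa using hT
    have h2 := h h1
    rw [exp_zero, dist_eq_norm] at h2
    calc ‖exp (s • T) (T v) - T v‖ = ‖(exp (s • T) - 1) (T v)‖ := by simp
      _ ≤ ‖exp (s • T) - 1‖ * ‖T v‖ := ContinuousLinearMap.le_opNorm _ _
      _ ≤ ε * ‖T v‖ := by gcongr
  have h5 := norm_image_sub_le_of_norm_deriv_le_segment_01' hd hb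
  simp only [one_smul, zero_smul, exp_zero, one_apply_eq_self, sub_zero] at h5
  rwa [sub_right_comm] at h5

variable {A1 A2 : Type*} [NormedRing A1] [NormedAlgebra ℝ A1] [CompleteSpace A1]
  [NormedRing A2] [NormedAlgebra ℝ A2] [CompleteSpace A2]

theorem exp_LR (L : A1 →L[ℝ] (E →L[ℝ] E)) (R : A2 →L[ℝ] (E →L[ℝ] E))
    (hL : ∀ a (n : ℕ), L (a ^ n) = (L a) ^ n) (hR : ∀ a (n : ℕ), R (a ^ n) = (R a) ^ n)
    (hc : ∀ a b, Commute (L a) (R b)) (a : A1) (b : A2) :
    exp (L a - R b) = L (exp a) * R (exp (-b)) := by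
  let _ : NormedAlgebra ℚ (E →L[ℝ] E) := .restrictScalars ℚ ℝ _
  rw [map_exp_pow L a (hL a), map_exp_pow R (-b) (hR (-b)), map_neg, sub_eq_add_neg]
  exact exp_add_of_commute (hc a b).neg_right

/-- abstract version of: small intertwined exponentials come from intertwined generators -/
theorem fixed_of_exp (L : A1 →L[ℝ] (E →L[ℝ] E)) (R : A2 →L[ℝ] (E →L[ℝ] E))
    (hL : ∀ a (n : ℕ), L (a ^ n) = (L a) ^ n) (hR : ∀ a (n : ℕ), R (a ^ n) = (R a) ^ n)
    (hc : ∀ a b, Commute (L a) (R b)) :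
    ∃ δ > 0, ∀ (a : A1) (b : A2) (w : E), ‖a‖ < δ → ‖b‖ < δ →
      L (exp a) (R (exp (-b)) w) = w → L a w = R b w := by
  obtain ⟨δ, hδ, h⟩ := exp_sub_bound (E := E) (ε := 1/2) (by norm_num)
  have hcont : ContinuousAt (fun p : A1 × A2 => L p.1 - R p.2) 0 := by fun_prop
  rw [Metric.continuousAt_iff] at hcont
  obtain ⟨η, hη, h'⟩ := hcont δ hδ
  refine ⟨η, hη, fun a b w ha hb hab => ?_⟩
  have hn : ‖L a - R b‖ < δ := by
    have h2 : dist (a, b) (0 : A1 × A2) < η := by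
      rw [dist_zero_right, Prod.norm_def]
      exact max_lt ha hb
    have h3 := h' h2
    simpa using h3
  have h1 : exp (L a - R b) w = w := by
    rw [exp_LR L R hL hR hc]
    exact hab
  have h2 := h _ hn w
  rw [h1] at h2
  have h3 : ‖(L a - R b) w‖ = 0 := by
    have h4 : ‖(L a - R b) w‖ ≤ 1/2 * ‖(L a - R b) w‖ := by
      rwa [sub_self, zero_sub, norm_neg] at h2
    have h0 := norm_nonneg ((L a - R b) w)
    linarith
  have h4 : (L a - R b) w = 0 := norm_eq_zero.1 h3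
  exact sub_eq_zero.1 (by simpa using h4)

/-- version of `fixed_of_exp` with three commuting actions -/
theorem fixed_of_exp3 (L R R' : A1 →L[ℝ] (E →L[ℝ] E))
    (hL : ∀ a (n : ℕ), L (a ^ n) = (L a) ^ n) (hR : ∀ a (n : ℕ), R (a ^ n) = (R a) ^ n)
    (hR' : ∀ a (n : ℕ), R' (a ^ n) = (R' a) ^ n)
    (hc : ∀ a b, Commute (L a) (R b)) (hc' : ∀ a b, Commute (L a) (R' b))
    (hc'' : ∀ a b, Commute (R a) (R' b)) :
    ∃ δ > 0, ∀ (a : A1) (w : E), ‖a‖ < δ →
      L (exp a) (R (exp (-a)) (R' (exp (-a)) w)) = w → L a w = R a w + R' a w := by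
  let _ : NormedAlgebra ℚ (E →L[ℝ] E) := .restrictScalars ℚ ℝ _
  obtain ⟨δ, hδ, h⟩ := exp_sub_bound (E := E) (ε := 1/2) (by norm_num)
  have hcont : ContinuousAt (fun p : A1 => L p - R p - R' p) 0 := by fun_prop
  rw [Metric.continuousAt_iff] at hcont
  obtain ⟨η, hη, h'⟩ := hcont δ hδ
  refine ⟨η, hη, fun a w ha hab => ?_⟩
  have hn : ‖L a - R a - R' a‖ < δ := by
    have h2 : dist a (0 : A1) < η := by rwa [dist_zero_right]
    have h3 := h' h2
    simpa using h3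
  have h1 : exp (L a - R a - R' a) w = w := by
    rw [sub_eq_add_neg, exp_add_of_commute ((hc' a a).neg_right.sub_left (hc'' a a).neg_right),
      exp_LR L R hL hR hc, ← map_neg, ← map_exp_pow R' (-a) (hR' (-a))]
    exact hab
  have h2 := h _ hn w
  rw [h1] at h2
  have h3 : ‖(L a - R a - R' a) w‖ = 0 := by
    have h4 : ‖(L a - R a - R' a) w‖ ≤ 1/2 * ‖(L a - R a - R' a) w‖ := by
      rwa [sub_self, zero_sub, norm_neg] at h2
    have h0 := norm_nonneg ((L a - R a - R' a) w)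
    linarith
  have h4 : (L a - R a - R' a) w = 0 := norm_eq_zero.1 h3
  rw [sub_apply, sub_apply, sub_sub] at h4
  exact sub_eq_zero.1 h4

theorem stable_of_exp (L : A1 →L[ℝ] (E →L[ℝ] E)) (R : A2 →L[ℝ] (E →L[ℝ] E))
    (hL : ∀ a (n : ℕ), L (a ^ n) = (L a) ^ n) (hR : ∀ a (n : ℕ), R (a ^ n) = (R a) ^ n)
    (hc : ∀ a b, Commute (L a) (R b)) (g : Submodule ℝ E) (hcl : IsClosed (g : Set E))
    (a : A1) (b : A2) (ha : ∀ w ∈ g, L a w - R b w ∈ g) :
    ∀ w ∈ g, L (exp a) (R (exp (-b)) w) ∈ g := by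
  intro w hw
  have h1 : L (exp a) (R (exp (-b)) w) = exp (L a - R b) w := by
    rw [exp_LR L R hL hR hc]
    rfl
  rw [h1]
  set Λ : E →L[ℝ] E := L a - R b with hΛ
  have hpow : ∀ n : ℕ, (Λ ^ n) w ∈ g := by
    intro n
    induction n with
    | zero => simpa using hw
    | succ n ih =>
      rw [pow_succ']
      have := ha _ ih
      simpa [hΛ] using this
  have h3 := (exp_series_hasSum_exp' (𝕂 := ℝ) Λ).mapL (ContinuousLinearMap.apply ℝ E w)
  have h4 : exp Λ w = ∑' n : ℕ, (ContinuousLinearMap.apply ℝ E w)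
      (((n.factorial : ℝ)⁻¹) • Λ ^ n) := h3.tsum_eq.symm
  rw [h4]
  exact tsum_mem hcl fun n => by
    simpa using g.smul_mem ((n.factorial : ℝ)⁻¹) (hpow n)

end ops

section conc

variable {E F : Type*} [NormedAddCommGroup E] [NormedSpace ℝ E] [CompleteSpace E]
  [NormedAddCommGroup F] [NormedSpace ℝ F] [CompleteSpace F]

/-- left composition -/
noncomputable def Lc (E F : Type*) [NormedAddCommGroup E] [NormedSpace ℝ E]
    [NormedAddCommGroup F] [NormedSpace ℝ F] :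
    (F →L[ℝ] F) →L[ℝ] ((E →L[ℝ] F) →L[ℝ] (E →L[ℝ] F)) :=
  ContinuousLinearMap.compL ℝ E F F

/-- right composition -/
noncomputable def Rc (E F : Type*) [NormedAddCommGroup E] [NormedSpace ℝ E]
    [NormedAddCommGroup F] [NormedSpace ℝ F] :
    (E →L[ℝ] E) →L[ℝ] ((E →L[ℝ] F) →L[ℝ] (E →L[ℝ] F)) :=
  (ContinuousLinearMap.compL ℝ E E F).flip

omit [CompleteSpace E] [CompleteSpace F] in
theorem Lc_apply (T : F →L[ℝ] F) (β : E →L[ℝ] F) : Lc E F T β = T.comp β := rfl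
omit [CompleteSpace E] [CompleteSpace F] in
theorem Rc_apply (S : E →L[ℝ] E) (β : E →L[ℝ] F) : Rc E F S β = β.comp S := rfl

omit [CompleteSpace E] [CompleteSpace F] in
theorem Lc_pow (T : F →L[ℝ] F) (n : ℕ) : Lc E F (T ^ n) = (Lc E F T) ^ n := by
  induction n with
  | zero => ext β x; simp [Lc_apply]
  | succ n ih =>
    rw [pow_succ, pow_succ, ← ih]
    ext β x
    simp [Lc_apply]

omit [CompleteSpace E] [CompleteSpace F] in
theorem Rc_pow (T : E →L[ℝ] E) (n : ℕ) : Rc E F (T ^ n) = (Rc E F T) ^ n := by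
  induction n with
  | zero => ext β x; simp [Rc_apply]
  | succ n ih =>
    rw [pow_succ', pow_succ, ← ih]
    ext β x
    simp [Rc_apply]

omit [CompleteSpace E] [CompleteSpace F] in
theorem comm_LRc (T : F →L[ℝ] F) (S : E →L[ℝ] E) : Commute (Lc E F T) (Rc E F S) := by
  unfold Commute SemiconjBy
  ext β x
  simp [Lc_apply, Rc_apply]

/-- Lemma C: small intertwined exponentials come from intertwined generators. -/
theorem intertwine_of_exp (E F : Type*) [NormedAddCommGroup E] [NormedSpace ℝ E] [CompleteSpace E]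
  [NormedAddCommGroup F] [NormedSpace ℝ F] [CompleteSpace F] :
    ∃ δ > 0, ∀ (T : F →L[ℝ] F) (S : E →L[ℝ] E) (β : E →L[ℝ] F),
    ‖T‖ < δ → ‖S‖ < δ → (exp T).comp β = β.comp (exp S) → T.comp β = β.comp S := by
  obtain ⟨δ, hδ, h⟩ := fixed_of_exp (Lc E F) (Rc E F) Lc_pow Rc_pow comm_LRc
  refine ⟨δ, hδ, fun T S β hT hS hTS => ?_⟩
  refine h T S β hT hS ?_
  rw [Lc_apply, Rc_apply, ← ContinuousLinearMap.comp_assoc, hTS, ContinuousLinearMap.comp_assoc]
  have := exp_mul_exp_neg S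
  rw [ContinuousLinearMap.mul_def] at this
  rw [this]
  exact ContinuousLinearMap.comp_id β

/-- A closed subspace of operators stable under `ad a` is stable under conjugation by `exp a`. -/
theorem conj_mem (g : Submodule ℝ (E →L[ℝ] E)) (hcl : IsClosed (g : Set (E →L[ℝ] E)))
    (a : E →L[ℝ] E) (ha : ∀ b ∈ g, a * b - b * a ∈ g) :
    ∀ b ∈ g, exp a * b * exp (-a) ∈ g := by
  intro b hb
  exact stable_of_exp (Lc E E) (Rc E E) Lc_pow Rc_pow comm_LRc g hcl a a ha b hb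

end conc

end Q12.Loc
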