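import Pool.Agent.Q12.LocAut

/-!
One-parameter groups of local automorphisms are generated by local derivations.
-/

open NormedSpace Filter Topology

namespace Q12.Loc

variable {V : Type*} [NormedAddCommGroup V] [NormedSpace ℝ V] [FiniteDimensional ℝ V]

/-- compact pieces of the automorphism group -/
def Kset (μ : V →L[ℝ] V →L[ℝ] V) (J : V →L[ℝ] V) (n : ℕ) : Set (V →L[ℝ] V) :=
  {h | IsAut μ J h ∧ ∃ h' : V →L[ℝ] V, h * h' = 1 ∧ h' * h = 1 ∧ ‖h‖ ≤ n ∧ ‖h'‖ ≤ n}

theorem isCompact_Kset (μ : V →L[ℝ] V →L[ℝ] V) (J : V →L[ℝ] V) (n : ℕ) :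
    IsCompact (Kset μ J n) := by
  have _ : ProperSpace (V →L[ℝ] V) := FiniteDimensional.proper ℝ (V →L[ℝ] V)
  let C : Set ((V →L[ℝ] V) × (V →L[ℝ] V)) :=
    {p | p.1 * p.2 = 1} ∩ {p | p.2 * p.1 = 1} ∩ {p | ‖p.1‖ ≤ n} ∩ {p | ‖p.2‖ ≤ n} ∩
      (⋂ x, ⋂ y, {p | p.1 (μ x y) = μ (p.1 x) (p.1 y)}) ∩ (⋂ x, {p | p.1 (J x) = J (p.1 x)})
  have hC : IsCompact C := by
    apply Metric.isCompact_of_isClosed_isBounded
    · refine (((((isClosed_eq (by fun_prop) (by fun_prop)).inter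
        (isClosed_eq (by fun_prop) (by fun_prop))).inter
        (isClosed_le (by fun_prop) (by fun_prop))).inter
        (isClosed_le (by fun_prop) (by fun_prop))).inter
        (isClosed_iInter fun x => isClosed_iInter fun y =>
          isClosed_eq (by fun_prop) (by fun_prop))).inter
        (isClosed_iInter fun x => isClosed_eq (by fun_prop) (by fun_prop))
    · refine (Metric.isBounded_closedBall (x := (0 : (V →L[ℝ] V) × (V →L[ℝ] V))) (r := n)).subset ?_
      rintro p ⟨⟨⟨⟨_, h1⟩, h2⟩, _⟩, _⟩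
      rw [mem_closedBall_zero_iff, Prod.norm_def]
      exact max_le h1 h2
  have h1 : Kset μ J n = Prod.fst '' C := by
    ext h
    constructor
    · rintro ⟨H, h', h1, h2, h3, h4⟩
      refine ⟨(h, h'), ⟨⟨⟨⟨⟨h1, h2⟩, h3⟩, h4⟩, ?_⟩, ?_⟩, rfl⟩
      · exact Set.mem_iInter.2 fun x => Set.mem_iInter.2 fun y => H.mul x y
      · exact Set.mem_iInter.2 fun x => H.lin x
    · rintro ⟨p, ⟨⟨⟨⟨⟨h1, h2⟩, h3⟩, h4⟩, h5⟩, h6⟩, rfl⟩
      refine ⟨⟨⟨p.2, h1, h2⟩, fun x y => ?_, fun x => ?_⟩, p.2, h1, h2, h3, h4⟩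
      · exact Set.mem_iInter.1 (Set.mem_iInter.1 h5 x) y
      · exact Set.mem_iInter.1 h6 x
  rw [h1]
  exact hC.image continuous_fst

theorem hasDerivAt_curve (X : V →L[ℝ] V) (x : V) (t : ℝ) :
    HasDerivAt (fun t : ℝ => exp (t • X) x) (X (exp (t • X) x)) t := by
  have _ := FiniteDimensional.complete ℝ V
  have h1 : HasDerivAt (fun t : ℝ => exp (t • X)) (X * exp (t • X)) t :=
    hasDerivAt_exp_smul_const' (𝕂 := ℝ) X t
  have h2 := h1.clm_apply (hasDerivAt_const t x)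
  simpa using h2

/-- At an interior time of a compact piece the velocity is tangent to the orbit. -/
theorem tangent_at {μ : V →L[ℝ] V →L[ℝ] V} {J : V →L[ℝ] V} {X : V →L[ℝ] V} {x : V} {n : ℕ}
    {t₀ : ℝ} (ht : t₀ ∈ interior {t : ℝ | ∃ h ∈ Kset μ J n, h x = exp (t • X) x}) :
    X (exp (t₀ • X) x) ∈ orb (der μ J) (exp (t₀ • X) x) := by
  have _ := FiniteDimensional.complete ℝ V
  set c : ℝ → V := fun t => exp (t • X) x with hc
  have hcd : HasDerivAt c (X (c t₀)) t₀ := hasDerivAt_curve X x t₀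
  have hcont : ContinuousAt c t₀ := hcd.continuousAt
  -- a sequence of times
  have hseq : Tendsto (fun j : ℕ => t₀ + 1 / ((j : ℝ) + 1)) atTop (𝓝 t₀) := by
    have := (tendsto_one_div_add_atTop_nhds_zero_nat (𝕜 := ℝ)).const_add t₀
    simpa using this
  have hev : ∀ᶠ j : ℕ in atTop, ∃ h ∈ Kset μ J n, h x = c (t₀ + 1 / ((j : ℝ) + 1)) :=
    hseq.eventually (mem_interior_iff_mem_nhds.1 ht)
  obtain ⟨N, hN⟩ := eventually_atTop.1 hev
  choose! k hkK hkx using fun j : ℕ => hN (j + N) (Nat.le_add_left _ _)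
  obtain ⟨k₀, hk₀, φ, hφ, hlim⟩ := (isCompact_Kset μ J n).tendsto_subseq hkK
  set u : ℕ → ℝ := fun j => t₀ + 1 / (((φ j + N : ℕ) : ℝ) + 1) with hu
  have hsub : Tendsto (fun j : ℕ => φ j + N) atTop atTop :=
    tendsto_atTop_mono (fun _ => Nat.le_add_right _ _) hφ.tendsto_atTop
  have hutend : Tendsto u atTop (𝓝 t₀) := hseq.comp hsub
  have hune : ∀ j, u j ≠ t₀ := by
    intro j h
    have h1 : (1:ℝ) / (((φ j + N : ℕ) : ℝ) + 1) = 0 := by
      have h2 : t₀ + 1 / (((φ j + N : ℕ) : ℝ) + 1) = t₀ := h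
      linarith
    have h3 : (0:ℝ) < 1 / (((φ j + N : ℕ) : ℝ) + 1) := by positivity
    linarith
  have hkx' : ∀ j, k (φ j) x = c (u j) := fun j => hkx (φ j)
  have hk₀x : k₀ x = c t₀ := by
    have h1 : Tendsto (fun j => k (φ j) x) atTop (𝓝 (k₀ x)) := by
      have h2 : Continuous (fun f : V →L[ℝ] V => f x) := by fun_prop
      exact (h2.tendsto k₀).comp hlim
    have h2 : Tendsto (fun j => k (φ j) x) atTop (𝓝 (c t₀)) := by
      simp_rw [hkx']
      exact hcont.tendsto.comp hutend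
    exact tendsto_nhds_unique h1 h2
  obtain ⟨hA, k', hk1, hk2, _, _⟩ := hk₀
  have hA' := hA.inv hk1 hk2
  -- difference quotients
  have hslope : Tendsto (fun j => (u j - t₀)⁻¹ • (c (u j) - c t₀)) atTop (𝓝 (X (c t₀))) := by
    have h1 := hasDerivAt_iff_tendsto_slope.1 hcd
    have h2 : Tendsto u atTop (𝓝[≠] t₀) :=
      tendsto_nhdsWithin_iff.2 ⟨hutend, Eventually.of_forall hune⟩
    have h3 := h1.comp h2
    refine h3.congr fun j => ?_
    simp only [Function.comp_apply, slope_def_module]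
  set w : V := k' (X (c t₀)) with hw
  have hq : Tendsto (fun j => (u j - t₀)⁻¹ • ((k' * k (φ j)) x - x)) atTop (𝓝 w) := by
    have h1 := (k'.continuous.tendsto _).comp hslope
    refine h1.congr fun j => ?_
    simp only [Function.comp_apply, map_smul, map_sub, mul_apply_eq_comp, hkx']
    rw [← hk₀x, comp_app hk2]
  have hone : Tendsto (fun j => k' * k (φ j)) atTop (𝓝 1) := by
    have h1 : Continuous (fun f : V →L[ℝ] V => k' * f) := by fun_prop
    have h2 := (h1.tendsto k₀).comp hlim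
    rw [hk2] at h2
    exact h2
  have hwmem : w ∈ orb (der μ J) x := by
    have hcl : IsClosed (orb (der μ J) x : Set V) := (orb (der μ J) x).closed_of_finiteDimensional
    rw [← SetLike.mem_coe, ← hcl.closure_eq, Metric.mem_closure_iff]
    intro ε hε
    set ε₁ : ℝ := min (1/2) (ε / (4 * (‖w‖ + 1))) with hε₁
    have hpos : 0 < ‖w‖ + 1 := by positivity
    have hε₁pos : 0 < ε₁ := lt_min (by norm_num) (by positivity)
    obtain ⟨δ, hδ, hA0⟩ := exp_sub_bound (E := V) hε₁pos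
    have e1 := hone.eventually (chart' μ J hδ)
    have e2 := hq.eventually (Metric.ball_mem_nhds w (half_pos hε))
    have e3 := hq.eventually (Metric.ball_mem_nhds w one_pos)
    obtain ⟨j, hj1, hj2, hj3⟩ := (e1.and (e2.and e3)).exists
    obtain ⟨a, ha, han, hae⟩ := hj1 (hA'.comp (hkK (φ j)).1)
    have hb := hA0 a han x
    rw [hae] at hb
    set v : V := (k' * k (φ j)) x - x with hv
    set σ : ℝ := (u j - t₀)⁻¹ with hσ
    have hle : ‖v - a x‖ ≤ 2 * ε₁ * ‖v‖ := by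
      have h1 : ‖a x‖ ≤ 2 * ‖v‖ := by
        have h2 : ‖a x‖ ≤ ‖v‖ + ‖v - a x‖ := by
          have h3 := norm_sub_le v (v - a x)
          rwa [sub_sub_cancel] at h3
        have h4 : ε₁ * ‖a x‖ ≤ 1/2 * ‖a x‖ := by
          gcongr
          exact min_le_left _ _
        linarith
      calc ‖v - a x‖ ≤ ε₁ * ‖a x‖ := hb
        _ ≤ ε₁ * (2 * ‖v‖) := by gcongr
        _ = 2 * ε₁ * ‖v‖ := by ring
    refine ⟨σ • a x, (orb (der μ J) x).smul_mem _ (mem_orb.2 ⟨a, ha, rfl⟩), ?_⟩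
    have h5 : ‖σ • v‖ ≤ ‖w‖ + 1 := by
      have h6 : ‖σ • v - w‖ < 1 := by
        rwa [dist_eq_norm] at hj3
      calc ‖σ • v‖ = ‖w + (σ • v - w)‖ := by congr 1; abel
        _ ≤ ‖w‖ + ‖σ • v - w‖ := norm_add_le _ _
        _ ≤ ‖w‖ + 1 := by linarith
    have h7 : ‖σ • v - σ • a x‖ ≤ ε / 2 := by
      rw [← smul_sub, norm_smul]
      calc ‖σ‖ * ‖v - a x‖ ≤ ‖σ‖ * (2 * ε₁ * ‖v‖) := by gcongr
        _ = 2 * ε₁ * ‖σ • v‖ := by rw [norm_smul]; ring
        _ ≤ 2 * (ε / (4 * (‖w‖ + 1))) * (‖w‖ + 1) := by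
            gcongr
            exact min_le_right _ _
        _ = ε / 2 := by field_simp; ring
    have h8 : ‖σ • v - w‖ < ε / 2 := by
      rwa [dist_eq_norm] at hj2
    rw [dist_eq_norm]
    calc ‖w - σ • a x‖ = ‖(σ • v - σ • a x) - (σ • v - w)‖ := by congr 1; abel
      _ ≤ ‖σ • v - σ • a x‖ + ‖σ • v - w‖ := norm_sub_le _ _
      _ < ε := by linarith
  obtain ⟨a, ha, hax⟩ := mem_orb.1 hwmem
  have h9 : X (c t₀) = (k₀ * a * k') (c t₀) := by
    simp only [mul_apply_eq_comp]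
    rw [← hk₀x, comp_app hk2, hax, hw, comp_app hk1]
    rw [hk₀x]
  rw [h9]
  exact mem_orb.2 ⟨_, conj_der hA hk1 hk2 ha, rfl⟩

/-- One-parameter groups of local automorphisms are generated by local derivations. -/
theorem locDer_of_locAut {μ : V →L[ℝ] V →L[ℝ] V} {J : V →L[ℝ] V} {X : V →L[ℝ] V}
    (hX : ∀ (t : ℝ) (x : V), ∃ h, IsAut μ J h ∧ exp (t • X) x = h x) (x : V) :
    X x ∈ orb (der μ J) x := by
  have _ := FiniteDimensional.complete ℝ V
  let _ : NormedAlgebra ℚ (V →L[ℝ] V) := .restrictScalars ℚ ℝ _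
  set c : ℝ → V := fun t => exp (t • X) x with hc
  have hcc : Continuous c := by
    rw [continuous_iff_continuousAt]
    exact fun t => (hasDerivAt_curve X x t).continuousAt
  have hc0 : c 0 = x := by simp [hc]
  let T : ℕ → Set ℝ := fun n => {t : ℝ | ∃ h ∈ Kset μ J n, h x = exp (t • X) x}
  have hT : ∀ n, IsClosed (T n) := by
    intro n
    have h1 : IsCompact ((fun h : V →L[ℝ] V => h x) '' Kset μ J n) :=
      (isCompact_Kset μ J n).image (by fun_prop)
    have h2 : T n = c ⁻¹' ((fun h : V →L[ℝ] V => h x) '' Kset μ J n) := rfl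
    rw [h2]
    exact h1.isClosed.preimage hcc
  have hU : (⋃ n, T n) = Set.univ := by
    refine Set.eq_univ_of_forall fun t => ?_
    obtain ⟨h, H, hh⟩ := hX t x
    obtain ⟨h', h1, h2⟩ := H.unit
    obtain ⟨n, hn⟩ := exists_nat_ge (max ‖h‖ ‖h'‖)
    exact Set.mem_iUnion.2 ⟨n, h, ⟨H, h', h1, h2, (le_max_left _ _).trans hn,
      (le_max_right _ _).trans hn⟩, hh.symm⟩
  have hdense := dense_iUnion_interior_of_closed hT hU
  by_contra hcon
  let b := Module.finBasis ℝ (orb (der μ J) x)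
  have hb : ∀ i, ∃ D ∈ der μ J, D x = b i := fun i => mem_orb.1 (b i).2
  choose a ha hab using hb
  let F : ℝ → (Fin (Module.finrank ℝ (orb (der μ J) x) + 1) → V) :=
    fun t => Fin.cons (X (c t)) (fun i => a i (c t))
  have hFc : Continuous F := by
    refine continuous_pi fun i => ?_
    refine Fin.cases ?_ (fun i => ?_) i
    · simpa [F, Function.comp_def] using X.continuous.comp hcc
    · simpa [F, Function.comp_def] using (a i).continuous.comp hcc
  have hF0 : LinearIndependent ℝ (F 0) := by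
    rw [linearIndependent_finCons]
    rw [hc0]
    have h1 : (fun i => a i x) = (Subtype.val ∘ b : _ → V) := by
      funext i
      exact hab i
    rw [h1]
    constructor
    · exact b.linearIndependent.map' (orb (der μ J) x).subtype (Submodule.ker_subtype _)
    · intro h2
      apply hcon
      refine Submodule.span_le.2 ?_ h2
      rintro _ ⟨i, rfl⟩
      exact (b i).2
  have hev : ∀ᶠ t in 𝓝 (0:ℝ), LinearIndependent ℝ (F t) :=
    hFc.continuousAt.eventually (LinearIndependent.eventually hF0)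
  obtain ⟨t₀, ht₀, ht₀'⟩ := (hdense.inter_nhds_nonempty hev)
  obtain ⟨n, hn⟩ := Set.mem_iUnion.1 ht₀
  have htan := tangent_at hn
  have hall : ∀ i, F t₀ i ∈ orb (der μ J) (c t₀) := by
    intro i
    refine Fin.cases ?_ (fun i => ?_) i
    · exact htan
    · exact mem_orb.2 ⟨a i, ha i, rfl⟩
  obtain ⟨h, H, hh⟩ := hX t₀ x
  have hle : Module.finrank ℝ (orb (der μ J) (c t₀)) ≤ Module.finrank ℝ (orb (der μ J) x) := by
    have h1 : c t₀ = h x := hh
    rw [h1]
    exact finrank_orb_le H x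
  have hcard := finrank_span_eq_card ht₀'
  have hspan : Submodule.span ℝ (Set.range (F t₀)) ≤ orb (der μ J) (c t₀) := by
    refine Submodule.span_le.2 ?_
    rintro _ ⟨i, rfl⟩
    exact hall i
  have hm := Submodule.finrank_mono hspan
  rw [hcard, Fintype.card_fin] at hm
  omega

end Q12.Loc
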