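import Pool.Agent.Q12.LocSub

/-!
Local derivations generate one-parameter groups of local automorphisms.
-/

open NormedSpace Filter Topology

namespace Q12.Loc

variable {V : Type*} [NormedAddCommGroup V] [NormedSpace ℝ V] [FiniteDimensional ℝ V]

/-- uniqueness for linear time dependent equations on a fixed interval -/
theorem lin_unique {a : ℝ → (V →L[ℝ] V)} {ε K : ℝ}
    (hK : ∀ t ∈ Set.Ioo (-ε) ε, ‖a t‖ ≤ K) (hε : 0 < ε) {f g : ℝ → V}
    (hf : ∀ t ∈ Set.Ioo (-ε) ε, HasDerivAt f (a t (f t)) t)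
    (hg : ∀ t ∈ Set.Ioo (-ε) ε, HasDerivAt g (a t (g t)) t) (h0 : f 0 = g 0) :
    ∀ t ∈ Set.Ioo (-ε) ε, f t = g t := by
  have hK0 : 0 ≤ K := (norm_nonneg _).trans (hK 0 ⟨by linarith, hε⟩)
  refine ODE_solution_unique_of_mem_Ioo (K := ⟨K, hK0⟩) (s := fun _ => Set.univ)
    (v := fun t z => a t z) (t₀ := 0) ?_ ⟨by linarith, hε⟩
    (fun t ht => ⟨hf t ht, trivial⟩) (fun t ht => ⟨hg t ht, trivial⟩) h0
  intro t ht
  exact LipschitzWith.lipschitzOnWith ((a t).lipschitz.weaken (hK t ht))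

/-- local version: for small times the flow of a local derivation stays in the orbit -/
theorem local_flow (μ : V →L[ℝ] V →L[ℝ] V) (J : V →L[ℝ] V) {X : V →L[ℝ] V}
    (hX : ∀ x, X x ∈ orb (der μ J) x) (y : V) :
    ∀ᶠ t in 𝓝 (0:ℝ), ∃ h, IsAut μ J h ∧ exp (t • X) y = h y := by
  have _ := FiniteDimensional.complete ℝ V
  set r := Module.finrank ℝ (orb (der μ J) y) with hr
  let b := Module.finBasis ℝ (orb (der μ J) y)
  have hb : ∀ i, ∃ D ∈ der μ J, D y = b i := fun i => mem_orb.1 (b i).2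
  choose a ha hab using hb
  obtain ⟨π₀, hπ₀⟩ := LinearMap.exists_extend (b.equivFun : orb (der μ J) y →ₗ[ℝ] (Fin r → ℝ))
  let π : V →L[ℝ] (Fin r → ℝ) := LinearMap.toContinuousLinearMap π₀
  let A : (Fin r → ℝ) →L[ℝ] (V →L[ℝ] V) :=
    LinearMap.toContinuousLinearMap (Fintype.linearCombination ℝ a)
  have hA : ∀ α, A α ∈ der μ J := by
    intro α
    change Fintype.linearCombination ℝ a α ∈ der μ J
    rw [Fintype.linearCombination_apply]
    exact Submodule.sum_mem _ fun i _ => Submodule.smul_mem _ _ (ha i)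
  let N : (V →L[ℝ] V) →L[ℝ] ((Fin r → ℝ) →L[ℝ] (Fin r → ℝ)) :=
    LinearMap.toContinuousLinearMap
      { toFun := fun h => π.comp ((ContinuousLinearMap.apply ℝ V (h y)).comp A)
        map_add' := fun h k => by ext α i; simp
        map_smul' := fun c h => by ext α i; simp }
  have hN : ∀ h α, N h α = π (A α (h y)) := fun h α => rfl
  have hN1 : N 1 = 1 := by
    refine ContinuousLinearMap.ext fun α => ?_
    rw [hN]
    have h1 : A α y = ((b.equivFun.symm α : orb (der μ J) y) : V) := by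
      change (Fintype.linearCombination ℝ a α) y = _
      rw [Fintype.linearCombination_apply, Module.Basis.equivFun_symm_apply]
      simp [hab]
    have h2 : π ((b.equivFun.symm α : orb (der μ J) y) : V) = α := by
      have h3 := LinearMap.congr_fun hπ₀ (b.equivFun.symm α)
      change π₀ ((b.equivFun.symm α : orb (der μ J) y) : V) =
        b.equivFun (b.equivFun.symm α) at h3
      rw [LinearEquiv.apply_symm_apply] at h3
      exact h3
    rw [one_apply_eq_self, h1, h2]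
    rfl
  let v : (V →L[ℝ] V) → (V →L[ℝ] V) := fun h => A (Ring.inverse (N h) (π (X (h y)))) * h
  have hv : ContDiffAt ℝ 1 v 1 := by
    have h1 : ContDiffAt ℝ 1 (fun h : V →L[ℝ] V => Ring.inverse (N h)) 1 := by
      have h2 : ContDiffAt ℝ 1 (Ring.inverse : ((Fin r → ℝ) →L[ℝ] (Fin r → ℝ)) → _) (N 1) := by
        rw [hN1]
        exact contDiffAt_ringInverse ℝ (1 : ((Fin r → ℝ) →L[ℝ] (Fin r → ℝ))ˣ)
      exact h2.comp (1 : V →L[ℝ] V) N.contDiff.contDiffAt
    have h3 : ContDiffAt ℝ 1 (fun h : V →L[ℝ] V => π (X (h y))) 1 := by fun_prop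
    have h4 : ContDiffAt ℝ 1 (fun h : V →L[ℝ] V => Ring.inverse (N h) (π (X (h y)))) 1 :=
      h1.clm_apply h3
    have h5 : ContDiffAt ℝ 1 (fun h : V →L[ℝ] V => A (Ring.inverse (N h) (π (X (h y))))) 1 :=
      A.contDiff.contDiffAt.comp (1 : V →L[ℝ] V) h4
    exact h5.mul contDiffAt_id
  obtain ⟨H, hH0, ε, hε, hH⟩ :=
    hv.exists_forall_mem_closedBall_exists_eq_forall_mem_Ioo_hasDerivAt₀ 0
  set α : ℝ → (Fin r → ℝ) := fun t => Ring.inverse (N (H t)) (π (X (H t y))) with hα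
  have hHc : ContinuousAt H 0 := (hH 0 ⟨by linarith, by linarith⟩).continuousAt
  have hAc : ContinuousAt (fun t => A (α t)) 0 := by
    have h1 : ContinuousAt (fun h : V →L[ℝ] V => Ring.inverse (N h)) (H 0) := by
      rw [hH0]
      have h2 : ContinuousAt (Ring.inverse : ((Fin r → ℝ) →L[ℝ] (Fin r → ℝ)) → _) (N 1) := by
        rw [hN1]
        exact (contDiffAt_ringInverse ℝ (1 : ((Fin r → ℝ) →L[ℝ] (Fin r → ℝ))ˣ)
          (n := 1)).continuousAt
      exact ContinuousAt.comp (g := Ring.inverse) (f := fun h => N h) h2 N.continuous.continuousAt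
    have h2 : ContinuousAt (fun t => Ring.inverse (N (H t))) 0 :=
      ContinuousAt.comp (g := fun h => Ring.inverse (N h)) h1 hHc
    have h3 : ContinuousAt (fun t => π (X (H t y))) 0 := by fun_prop
    exact A.continuous.continuousAt.comp (h2.clm_apply h3)
  -- shrink the interval
  have e1 : ∀ᶠ t in 𝓝 (0:ℝ), ‖A (α t)‖ < ‖A (α 0)‖ + 1 :=
    hAc.norm.eventually (gt_mem_nhds (by linarith))
  have e2 : ∀ᶠ t in 𝓝 (0:ℝ), IsUnit (H t) := by
    have h1 : {x : V →L[ℝ] V | IsUnit x} ∈ 𝓝 (H 0) := by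
      rw [hH0]
      exact Units.isOpen.mem_nhds isUnit_one
    exact hHc h1
  have e3 : ∀ᶠ t in 𝓝 (0:ℝ), IsUnit (N (H t)) := by
    have h1 : {x : (Fin r → ℝ) →L[ℝ] (Fin r → ℝ) | IsUnit x} ∈ 𝓝 (N (H 0)) := by
      rw [hH0, hN1]
      exact Units.isOpen.mem_nhds isUnit_one
    exact (ContinuousAt.comp (g := fun h => N h) N.continuous.continuousAt hHc) h1
  have e4 : ∀ᶠ t in 𝓝 (0:ℝ), t ∈ Set.Ioo (0 - ε) (0 + ε) :=
    Ioo_mem_nhds (by linarith) (by linarith)
  obtain ⟨η, hη, hball⟩ := Metric.eventually_nhds_iff_ball.1 (e1.and (e2.and (e3.and e4)))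
  have hI : ∀ t ∈ Set.Ioo (-η) η, t ∈ Metric.ball (0:ℝ) η := by
    intro t ht
    rw [Real.ball_eq_Ioo]
    simpa using ht
  have hK : ∀ t ∈ Set.Ioo (-η) η, ‖A (α t)‖ ≤ ‖A (α 0)‖ + 1 := fun t ht =>
    (hball t (hI t ht)).1.le
  have hHd : ∀ t ∈ Set.Ioo (-η) η, HasDerivAt H (A (α t) * H t) t := fun t ht =>
    hH t (hball t (hI t ht)).2.2.2
  have hHz : ∀ z, ∀ t ∈ Set.Ioo (-η) η, HasDerivAt (fun t => H t z) (A (α t) (H t z)) t := by
    intro z t ht
    have h1 := (hHd t ht).clm_apply (hasDerivAt_const t z)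
    simpa using h1
  have hAut : ∀ t ∈ Set.Ioo (-η) η, IsAut μ J (H t) := by
    intro t ht
    refine ⟨?_, fun x z => ?_, fun x => ?_⟩
    · obtain ⟨u, hu⟩ := (hball t (hI t ht)).2.1
      exact ⟨((u⁻¹ : (V →L[ℝ] V)ˣ) : V →L[ℝ] V), by rw [← hu]; simp, by rw [← hu]; simp⟩
    · refine lin_unique hK hη (f := fun t => H t (μ x z)) (g := fun t => μ (H t x) (H t z))
        (fun t ht => hHz _ t ht) (fun t ht => ?_) (by simp [hH0]) t ht
      have h1 := (μ.hasFDerivAt.comp_hasDerivAt t (hHz x t ht)).clm_apply (hHz z t ht)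
      have h2 := (mem_der.1 (hA (α t))).1 (H t x) (H t z)
      rw [h2]
      exact h1
    · refine lin_unique hK hη (f := fun t => H t (J x)) (g := fun t => J (H t x))
        (fun t ht => hHz _ t ht) (fun t ht => ?_) (by simp [hH0]) t ht
      have h1 := (J.hasFDerivAt.comp_hasDerivAt t (hHz x t ht))
      have h2 := (mem_der.1 (hA (α t))).2 (H t x)
      rw [h2]
      exact h1
  have hkey : ∀ t ∈ Set.Ioo (-η) η, A (α t) (H t y) = X (H t y) := by
    intro t ht
    have hun := (hball t (hI t ht)).2.2.1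
    obtain ⟨u, hu⟩ := hun
    let ψ : (Fin r → ℝ) →ₗ[ℝ] V :=
      ((ContinuousLinearMap.apply ℝ V (H t y)).comp A : (Fin r → ℝ) →L[ℝ] V)
    have hψ : ∀ β, π (ψ β) = N (H t) β := fun β => rfl
    have hinjN : Function.Injective (N (H t)) := by
      rw [← hu]
      intro β γ h
      have h2 := congrArg (fun z => ((u⁻¹ : ((Fin r → ℝ) →L[ℝ] (Fin r → ℝ))ˣ) :
        (Fin r → ℝ) →L[ℝ] (Fin r → ℝ)) z) h
      simp only [← mul_apply_eq_comp, Units.inv_mul, one_apply_eq_self] at h2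
      exact h2
    have hψinj : Function.Injective ψ := by
      intro β γ h
      apply hinjN
      rw [← hψ, ← hψ, h]
    have hrange : LinearMap.range ψ = orb (der μ J) (H t y) := by
      apply Submodule.eq_of_le_of_finrank_le
      · rintro _ ⟨β, rfl⟩
        exact mem_orb.2 ⟨A β, hA β, rfl⟩
      · rw [LinearMap.finrank_range_of_inj hψinj, Module.finrank_fin_fun]
        exact finrank_orb_le (hAut t ht) y
    have hXm : X (H t y) ∈ LinearMap.range ψ := by
      rw [hrange]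
      exact hX _
    obtain ⟨β, hβ⟩ := hXm
    have h3 : N (H t) (α t) = π (X (H t y)) := by
      simp only [hα]
      rw [← hu, Ring.inverse_unit]
      simp only [← mul_apply_eq_comp, Units.mul_inv, one_apply_eq_self]
    have h4 : β = α t := by
      apply hinjN
      rw [h3, ← hβ, hψ]
    rw [← hβ, h4]
    rfl
  have hfin : ∀ t ∈ Set.Ioo (-η) η, exp (t • X) y = H t y := by
    refine lin_unique (a := fun _ => X) (K := ‖X‖) (fun _ _ => le_rfl) hη
      (fun t _ => hasDerivAt_curve X y t) (fun t ht => ?_) (by simp [hH0])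
    have := hHz y t ht
    rw [hkey t ht] at this
    exact this
  have hmem : Set.Ioo (-η) η ∈ 𝓝 (0:ℝ) := Ioo_mem_nhds (by linarith) hη
  filter_upwards [hmem] with t ht
  exact ⟨H t, hAut t ht, hfin t ht⟩

/-- Local derivations generate one-parameter groups of local automorphisms. -/
theorem locAut_of_locDer (μ : V →L[ℝ] V →L[ℝ] V) (J : V →L[ℝ] V) {X : V →L[ℝ] V}
    (hX : ∀ x, X x ∈ orb (der μ J) x) (t : ℝ) (x : V) :
    ∃ h, IsAut μ J h ∧ exp (t • X) x = h x := by
  have _ := FiniteDimensional.complete ℝ V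
  let _ : NormedAlgebra ℚ (V →L[ℝ] V) := .restrictScalars ℚ ℝ _
  have hadd : ∀ s t : ℝ, exp ((s + t) • X) x = exp (s • X) (exp (t • X) x) := by
    intro s t
    rw [add_smul, exp_add_of_commute (((Commute.refl X).smul_left s).smul_right t)]
    rfl
  let O : Set ℝ := {t : ℝ | ∃ h, IsAut μ J h ∧ exp (t • X) x = h x}
  have hshift : ∀ t₀ : ℝ, ∀ᶠ t in 𝓝 t₀, ∃ h, IsAut μ J h ∧
      exp (t • X) x = h (exp (t₀ • X) x) := by
    intro t₀
    have h1 := local_flow μ J hX (exp (t₀ • X) x)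
    have h2 : Tendsto (fun t : ℝ => t - t₀) (𝓝 t₀) (𝓝 0) := by
      have : Continuous (fun t : ℝ => t - t₀) := by fun_prop
      simpa using this.tendsto t₀
    filter_upwards [h2.eventually h1] with t ht
    obtain ⟨h, H, hh⟩ := ht
    refine ⟨h, H, ?_⟩
    rw [← hh, ← hadd]
    simp
  have hO : IsOpen O := by
    rw [isOpen_iff_mem_nhds]
    rintro t₀ ⟨h₀, H₀, hh₀⟩
    filter_upwards [hshift t₀] with t ht
    obtain ⟨h, H, hh⟩ := ht
    exact ⟨h * h₀, H.comp H₀, by rw [hh, hh₀]; rfl⟩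
  have hOc : IsOpen Oᶜ := by
    rw [isOpen_iff_mem_nhds]
    intro t₀ ht₀
    filter_upwards [hshift t₀] with t ht
    obtain ⟨h, H, hh⟩ := ht
    rintro ⟨h₁, H₁, hh₁⟩
    apply ht₀
    obtain ⟨h', e1, e2⟩ := H.unit
    refine ⟨h' * h₁, (H.inv e1 e2).comp H₁, ?_⟩
    rw [mul_apply_eq_comp, ← hh₁, hh, comp_app e2]
  have hclopen : IsClopen O := ⟨isOpen_compl_iff.1 hOc, hO⟩
  have h0 : (0:ℝ) ∈ O := ⟨1, isAut_one μ J, by simp⟩
  have huniv := hclopen.eq_univ ⟨0, h0⟩
  have : t ∈ O := by rw [huniv]; trivial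
  exact this

end Q12.Loc
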