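import Mathlib

/-!
Words and lengths in `n`-ary algebras, characteristic sequences.
-/

namespace Q12.NaryLength

variable {K V : Type*} [Field K] [AddCommGroup V] [Module K V] {n : ℕ}

/-- `IsWord μ S ℓ w`: `w` is (the value of) a word of length `ℓ` in `S`: the elements of `S` are
words of length `1`, and the product of words of lengths `ℓ_1, ..., ℓ_n` is a word of length
`ℓ_1 + ... + ℓ_n`. -/
inductive IsWord (μ : MultilinearMap K (fun _ : Fin n => V) V) (S : Set V) : ℕ → V → Prop
  | base (s : V) (hs : s ∈ S) : IsWord μ S 1 s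
  | app (l : Fin n → ℕ) (w : Fin n → V) (h : ∀ i, IsWord μ S (l i) (w i)) :
      IsWord μ S (∑ i, l i) (μ w)

/-- `L_i(S)`: the span of the words of length at most `i`. -/
def Lsp (μ : MultilinearMap K (fun _ : Fin n => V) V) (S : Set V) (i : ℕ) : Submodule K V :=
  Submodule.span K {w | ∃ l ≤ i, IsWord μ S l w}

variable {μ : MultilinearMap K (fun _ : Fin n => V) V} {S : Set V}

theorem mem_Lsp {l i : ℕ} {w : V} (h : IsWord μ S l w) (hl : l ≤ i) : w ∈ Lsp μ S i :=
  Submodule.subset_span ⟨l, hl, h⟩

theorem Lsp_mono {i j : ℕ} (h : i ≤ j) : Lsp μ S i ≤ Lsp μ S j := by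
  refine Submodule.span_mono ?_
  rintro w ⟨l, hl, hw⟩
  exact ⟨l, hl.trans h, hw⟩

theorem map_mem_of_span (X : Fin n → Set V) (P : Submodule K V)
    (hP : ∀ x : Fin n → V, (∀ i, x i ∈ X i) → μ x ∈ P) (w : Fin n → V)
    (hw : ∀ i, w i ∈ Submodule.span K (X i)) : μ w ∈ P := by
  classical
  have key : ∀ (s : Finset (Fin n)) (w : Fin n → V), (∀ i ∈ s, w i ∈ Submodule.span K (X i)) →
      (∀ i ∉ s, w i ∈ X i) → μ w ∈ P := by
    intro s
    induction s using Finset.induction_on with
    | empty => exact fun w _ h => hP w fun i => h i (Finset.notMem_empty i)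
    | insert i s hi ih =>
      intro w h1 h2
      have h3 : w i ∈ (P.comap (μ.toLinearMap w i)) := by
        refine Submodule.span_le.2 ?_ (h1 i (Finset.mem_insert_self i s))
        intro x hx
        change μ (Function.update w i x) ∈ P
        refine ih _ (fun j hj => ?_) (fun j hj => ?_)
        · have hji : j ≠ i := fun h => hi (h ▸ hj)
          rw [Function.update_of_ne hji]
          exact h1 j (Finset.mem_insert_of_mem hj)
        · by_cases hji : j = i
          · subst hji
            rw [Function.update_self]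
            exact hx
          · rw [Function.update_of_ne hji]
            exact h2 j (by simp [hji, hj])
      have h4 : μ (Function.update w i (w i)) ∈ P := h3
      rwa [Function.update_eq_self] at h4
  exact key Finset.univ w (fun i _ => hw i) (fun i hi => absurd (Finset.mem_univ i) hi)

theorem map_mem_Lsp (l : Fin n → ℕ) (w : Fin n → V) (hw : ∀ i, w i ∈ Lsp μ S (l i)) :
    μ w ∈ Lsp μ S (∑ i, l i) := by
  refine map_mem_of_span (fun i => {w | ∃ m ≤ l i, IsWord μ S m w}) _ (fun x hx => ?_) w hw
  choose m hm hx using hx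
  exact mem_Lsp (IsWord.app m x hx) (Finset.sum_le_sum fun i _ => hm i)

theorem IsWord.pos {l : ℕ} {w : V} (hn : 2 ≤ n) (h : IsWord μ S l w) : 1 ≤ l := by
  induction h with
  | base s hs => exact le_rfl
  | app l w h ih =>
    have : l ⟨0, by omega⟩ ≤ ∑ i, l i :=
      Finset.single_le_sum (f := l) (fun i _ => Nat.zero_le _) (Finset.mem_univ _)
    exact (ih _).trans this

section char

variable [FiniteDimensional K V]

/-- the characteristic sequence -/
noncomputable def ch (μ : MultilinearMap K (fun _ : Fin n => V) V) (S : Set V) (h : ℕ) : ℕ :=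
  sInf {i | h + 1 ≤ Module.finrank K (Lsp μ S i)}

omit [FiniteDimensional K V] in
theorem ch_spec {N : ℕ} (hN : Lsp μ S N = ⊤) {h : ℕ} (hh : h < Module.finrank K V) :
    h + 1 ≤ Module.finrank K (Lsp μ S (ch μ S h)) := by
  have : (sInf {i | h + 1 ≤ Module.finrank K (Lsp μ S i)}) ∈
      {i | h + 1 ≤ Module.finrank K (Lsp μ S i)} := by
    refine Nat.sInf_mem ⟨N, ?_⟩
    change h + 1 ≤ _
    rw [hN, finrank_top]
    exact hh
  exact this

omit [FiniteDimensional K V] in
theorem ch_le {h i : ℕ} (hi : h + 1 ≤ Module.finrank K (Lsp μ S i)) : ch μ S h ≤ i :=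
  Nat.sInf_le hi

theorem ch_mono {N : ℕ} (hN : Lsp μ S N = ⊤) {h h' : ℕ} (hh : h ≤ h')
    (hk : h' < Module.finrank K V) : ch μ S h ≤ ch μ S h' :=
  ch_le (le_trans (by omega) (ch_spec hN hk))

/-- adapted basis -/
theorem exists_adapted {N : ℕ} (hN : Lsp μ S N = ⊤) : ∃ e : Fin (Module.finrank K V) → V,
    LinearIndependent K e ∧ ∀ t : Fin (Module.finrank K V), e t ∈ Lsp μ S (ch μ S t) := by
  have key : ∀ h ≤ Module.finrank K V, ∃ e : Fin h → V,
      LinearIndependent K e ∧ ∀ t : Fin h, e t ∈ Lsp μ S (ch μ S t) := by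
    intro h
    induction h with
    | zero => exact fun _ => ⟨Fin.elim0, linearIndependent_empty_type, fun t => t.elim0⟩
    | succ h ih =>
      intro hh
      obtain ⟨e, he, he'⟩ := ih (by omega)
      have h1 : ¬ Lsp μ S (ch μ S h) ≤ Submodule.span K (Set.range e) := by
        intro h2
        have h3 := Submodule.finrank_mono h2
        have h4 := finrank_span_eq_card he
        rw [Fintype.card_fin] at h4
        have h5 := ch_spec (μ := μ) (S := S) hN (h := h) (by omega)
        omega
      obtain ⟨v, hv, hv'⟩ := Set.not_subset.1 h1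
      refine ⟨Fin.snoc e v, ?_, ?_⟩
      · rw [linearIndependent_finSnoc]
        exact ⟨he, hv'⟩
      · intro t
        refine Fin.lastCases ?_ (fun t => ?_) t
        · simpa using hv
        · simpa using he' t
  exact key _ le_rfl

theorem adapted_span {N : ℕ} (hN : Lsp μ S N = ⊤) {e : Fin (Module.finrank K V) → V}
    (he : LinearIndependent K e)
    (he' : ∀ t : Fin (Module.finrank K V), e t ∈ Lsp μ S (ch μ S t)) (i : ℕ) :
    Lsp μ S i = Submodule.span K (e '' {t | ch μ S t ≤ i}) := by
  symm
  apply Submodule.eq_of_le_of_finrank_le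
  · refine Submodule.span_le.2 ?_
    rintro _ ⟨t, ht, rfl⟩
    exact Lsp_mono ht (he' t)
  · have h1 : ∀ t : Fin (Module.finrank K V), (t : ℕ) < Module.finrank K (Lsp μ S i) →
        t ∈ {t : Fin (Module.finrank K V) | ch μ S t ≤ i} := fun t ht => ch_le ht
    have h2 : LinearIndependent K (fun t : Fin (Module.finrank K (Lsp μ S i)) =>
        e ⟨t, t.2.trans_le (Submodule.finrank_le _)⟩) :=
      he.comp _ (fun a b h => Fin.ext (by simpa using h))
    have h3 := finrank_span_eq_card h2
    rw [Fintype.card_fin] at h3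
    rw [← h3]
    refine Submodule.finrank_mono (Submodule.span_mono ?_)
    rintro _ ⟨t, rfl⟩
    exact ⟨_, h1 _ t.2, rfl⟩

/-- The key step: an entry `≥ 2` of the characteristic sequence is bounded by a sum of earlier
entries, with indices distinct on `A`. -/
theorem ch_step (hn : 2 ≤ n) (h2 : (2 : K) ≠ 0) (A : Finset (Fin n))
    (hA : ∀ x : Fin n → V, ∀ i ∈ A, ∀ j ∈ A, i ≠ j → μ (x ∘ Equiv.swap i j) = - μ x)
    {N : ℕ} (hN : Lsp μ S N = ⊤) {h : ℕ} (hh : h < Module.finrank K V) (hm : 2 ≤ ch μ S h) :
    ∃ t : Fin n → ℕ, (∀ i, t i < h) ∧ Set.InjOn t A ∧ ch μ S h ≤ ∑ i, ch μ S (t i) := by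
  obtain ⟨e, he, he'⟩ := exists_adapted (μ := μ) (S := S) hN
  set M := ch μ S h with hM
  have hlt : ¬ (h + 1 ≤ Module.finrank K (Lsp μ S (M - 1))) := by
    intro hcon
    have := ch_le hcon
    omega
  have hspec := ch_spec (μ := μ) (S := S) hN hh
  rw [← hM] at hspec
  have hne : ¬ Lsp μ S M ≤ Lsp μ S (M - 1) := by
    intro hle
    have := Submodule.finrank_mono hle
    omega
  have hw : ∃ w, IsWord μ S M w ∧ w ∉ Lsp μ S (M - 1) := by
    by_contra hcon
    push Not at hcon
    apply hne
    refine Submodule.span_le.2 ?_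
    rintro w ⟨l, hl, hw⟩
    by_cases hlM : l = M
    · subst hlM
      exact hcon w hw
    · exact mem_Lsp hw (by omega)
  obtain ⟨w, hw, hwn⟩ := hw
  obtain ⟨l, ws, hws, hlM, rfl⟩ : ∃ (l : Fin n → ℕ) (ws : Fin n → V),
      (∀ i, IsWord μ S (l i) (ws i)) ∧ ∑ i, l i = M ∧ μ ws = w := by
    clear_value M
    cases hw with
    | base s hs => omega
    | app l ws hws => exact ⟨l, ws, hws, rfl, rfl⟩
  have hex : ∃ t : Fin n → Fin (Module.finrank K V), (∀ i, ch μ S (t i) ≤ l i) ∧
      μ (fun i => e (t i)) ∉ Lsp μ S (M - 1) := by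
    by_contra hcon
    push Not at hcon
    apply hwn
    refine map_mem_of_span (fun i => e '' {t | ch μ S t ≤ l i}) _ (fun x hx => ?_) ws (fun i => ?_)
    · choose t ht htx using hx
      have : x = fun i => e (t i) := funext fun i => (htx i).symm
      rw [this]
      exact hcon t ht
    · rw [← adapted_span hN he he']
      exact mem_Lsp (hws i) le_rfl
  obtain ⟨t, ht, htn⟩ := hex
  refine ⟨fun i => t i, fun i => ?_, ?_, ?_⟩
  · -- `t i < h`
    by_contra hcon
    push Not at hcon
    have h3 := ch_mono (μ := μ) (S := S) hN hcon (t i).2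
    have h4 := ht i
    have h5 : ∃ j : Fin n, j ≠ i := by
      by_cases hi0 : (i : ℕ) = 0
      · exact ⟨⟨1, by omega⟩, fun h => by have := congrArg Fin.val h; simp at this; omega⟩
      · exact ⟨⟨0, by omega⟩, fun h => by have := congrArg Fin.val h; simp at this; omega⟩
    obtain ⟨j, hj⟩ := h5
    have h6 : l i + l j ≤ ∑ i, l i := by
      have h7 : ∑ x ∈ ({i, j} : Finset (Fin n)), l x ≤ ∑ x, l x :=
        Finset.sum_le_sum_of_subset (Finset.subset_univ _)
      rwa [Finset.sum_pair hj.symm] at h7
    have h8 := (hws j).pos hn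
    omega
  · intro i hi j hj hij
    by_contra hne'
    have hij' : t i = t j := Fin.ext hij
    have h3 := hA (fun i => e (t i)) i hi j hj hne'
    have h4 : (fun i => e (t i)) ∘ Equiv.swap i j = fun i => e (t i) := by
      funext x
      simp only [Function.comp_apply]
      rcases eq_or_ne x i with rfl | hxi
      · rw [Equiv.swap_apply_left, hij']
      · rcases eq_or_ne x j with rfl | hxj
        · rw [Equiv.swap_apply_right, hij']
        · rw [Equiv.swap_apply_of_ne_of_ne hxi hxj]
    rw [h4] at h3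
    have h5 : (2 : K) • μ (fun i => e (t i)) = 0 := by
      rw [two_smul]
      nth_rewrite 1 [h3]
      exact neg_add_cancel _
    have h6 : μ (fun i => e (t i)) = 0 := (smul_eq_zero.1 h5).resolve_left h2
    exact htn (by rw [h6]; exact Submodule.zero_mem _)
  · by_contra hcon
    push Not at hcon
    apply htn
    exact Lsp_mono (by omega) (map_mem_Lsp (fun i => ch μ S (t i)) _ (fun i => he' (t i)))

/-- rearrangement: a sum of values of a monotone sequence over distinct indices is at most the sum
of the last values -/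
theorem sum_le_top (m : ℕ → ℕ) (h : ℕ) (hm : ∀ i j, i ≤ j → j < h → m i ≤ m j)
    (T : Finset ℕ) (hT : ∀ t ∈ T, t < h) :
    ∑ t ∈ T, m t ≤ ∑ i ∈ Finset.range T.card, m (h - 1 - i) := by
  induction h generalizing T with
  | zero =>
    have : T = ∅ := Finset.eq_empty_of_forall_notMem fun t ht => absurd (hT t ht) (by omega)
    simp [this]
  | succ h ih =>
    by_cases hh : h ∈ T
    · have h1 := ih (fun i j hij hj => hm i j hij (by omega)) (T.erase h) (fun t ht => by
        have h2 := hT t (Finset.mem_of_mem_erase ht)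
        have h3 := Finset.ne_of_mem_erase ht
        omega)
      rw [Finset.card_erase_of_mem hh] at h1
      have h2 : T.card = (T.card - 1) + 1 := by
        have := Finset.card_pos.2 ⟨h, hh⟩
        omega
      rw [← Finset.add_sum_erase T m hh, h2, Finset.sum_range_succ']
      simp only [Nat.add_sub_cancel, Nat.sub_zero]
      rw [add_comm]
      refine Nat.add_le_add_right (h1.trans (le_of_eq ?_)) _
      refine Finset.sum_congr rfl fun i _ => ?_
      congr 1
      omega
    · have h1 := ih (fun i j hij hj => hm i j hij (by omega)) T (fun t ht => by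
        have h2 := hT t ht
        have h3 : t ≠ h := fun h' => hh (h' ▸ ht)
        omega)
      have hcard : T.card ≤ h := by
        have h2 : T ⊆ Finset.range h := fun t ht => by
          have h2 := hT t ht
          have h3 : t ≠ h := fun h' => hh (h' ▸ ht)
          exact Finset.mem_range.2 (by omega)
        simpa using Finset.card_le_card h2
      refine h1.trans (Finset.sum_le_sum fun i hi => ?_)
      have hi' := Finset.mem_range.1 hi
      exact hm _ _ (by omega) (by omega)

/-- The bound for the characteristic sequence. -/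
theorem ch_bound (hn : 2 ≤ n) (h2 : (2 : K) ≠ 0) (A : Finset (Fin n))
    (hA : ∀ x : Fin n → V, ∀ i ∈ A, ∀ j ∈ A, i ≠ j → μ (x ∘ Equiv.swap i j) = - μ x)
    {N : ℕ} (hN : Lsp μ S N = ⊤) {h : ℕ} (hh : h < Module.finrank K V) (hm : 2 ≤ ch μ S h) :
    A.card ≤ h ∧ 1 ≤ h ∧ ch μ S h ≤ (n - A.card) * ch μ S (h - 1) +
      ∑ i ∈ Finset.range A.card, ch μ S (h - 1 - i) := by
  obtain ⟨t, ht, hinj, hle⟩ := ch_step hn h2 A hA hN hh hm
  have h0 : 0 < h := (Nat.zero_le _).trans_lt (ht ⟨0, by omega⟩)
  have hcard : (A.image t).card = A.card := Finset.card_image_of_injOn hinj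
  have hsub : A.image t ⊆ Finset.range h := by
    intro x hx
    obtain ⟨i, -, rfl⟩ := Finset.mem_image.1 hx
    exact Finset.mem_range.2 (ht i)
  have hAh : A.card ≤ h := by
    rw [← hcard]
    simpa using Finset.card_le_card hsub
  refine ⟨hAh, h0, hle.trans ?_⟩
  rw [← Finset.sum_add_sum_compl A, add_comm]
  refine Nat.add_le_add ?_ ?_
  · have h3 : ∀ i ∈ Aᶜ, ch μ S (t i) ≤ ch μ S (h - 1) := fun i _ =>
      ch_mono hN (by have := ht i; omega) (by omega)
    have h4 := Finset.sum_le_card_nsmul _ _ _ h3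
    rw [Finset.card_compl, Fintype.card_fin, smul_eq_mul] at h4
    exact h4
  · have h5 : ∑ i ∈ A, ch μ S (t i) = ∑ x ∈ A.image t, ch μ S x :=
      (Finset.sum_image (f := fun x => ch μ S x) hinj).symm
    rw [h5, ← hcard]
    exact sum_le_top (fun x => ch μ S x) h (fun i j hij hj => ch_mono hN hij (by omega)) _
      (fun x hx => Finset.mem_range.1 (hsub hx))

end char

end Q12.NaryLength
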