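import Mathlib

/-!
Omega-algebras over a commutative ring: operations, formal monomials, polynomials, identities,
subalgebras, ideals, sections.
-/

namespace Q12.Omega

universe u v w

/-- An `Ω`-algebra structure on the `k`-module `A`: every `n`-ary symbol of the signature `Ω` acts
as a `k`-multilinear map `A^n → A`. -/
abbrev Ops (Ω : ℕ → Type v) (k : Type u) (A : Type w) [CommRing k] [AddCommGroup A]
    [Module k A] : Type (max v w) :=
  ∀ n : ℕ, Ω n → MultilinearMap k (fun _ : Fin n => A) A

/-- Formal `Ω`-monomials in the variables `x_0, x_1, x_2, ...`. -/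
inductive Monom (Ω : ℕ → Type v) : Type v
  | var : ℕ → Monom Ω
  | app : (n : ℕ) → Ω n → (Fin n → Monom Ω) → Monom Ω

/-- The number of occurrences of the variable `x_i` in a monomial. -/
def Monom.count {Ω : ℕ → Type v} (i : ℕ) : Monom Ω → ℕ
  | .var j => if j = i then 1 else 0
  | .app _ _ t => ∑ l, (t l).count i

section

variable {Ω : ℕ → Type v} {k : Type u} {A : Type w} [CommRing k] [AddCommGroup A] [Module k A]

/-- The value of a monomial at `x_i = a i`. -/
def Monom.eval (op : Ops Ω k A) (a : ℕ → A) : Monom Ω → A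
  | .var i => a i
  | .app n ω t => op n ω (fun l => (t l).eval op a)

/-- The value of an element `f` of the free `Ω`-algebra (the free `k`-module on the monomials)
at `x_i = a i`. -/
noncomputable def evalPoly (op : Ops Ω k A) (a : ℕ → A) (f : Monom Ω →₀ k) : A :=
  f.sum fun t c => c • t.eval op a

/-- `f` is a polynomial identity of the `Ω`-algebra `A`. -/
def IsIdentity (op : Ops Ω k A) (f : Monom Ω →₀ k) : Prop :=
  ∀ a : ℕ → A, evalPoly op a f = 0

/-- `R` is a subalgebra: a submodule closed under all operations. -/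
def IsSubalgebra (op : Ops Ω k A) (R : Submodule k A) : Prop :=
  ∀ (n : ℕ) (ω : Ω n) (a : Fin n → A), (∀ i, a i ∈ R) → op n ω a ∈ R

/-- `I` is an ideal of the subalgebra `R`: a submodule of `R` such that `ω(a_1,...,a_n) ∈ I`
whenever all `a_i ∈ R` and some `a_i ∈ I` (in particular `n > 0`). -/
def IsIdealOf (op : Ops Ω k A) (R I : Submodule k A) : Prop :=
  I ≤ R ∧ ∀ (n : ℕ) (ω : Ω n) (a : Fin n → A), (∀ i, a i ∈ R) → (∃ i, a i ∈ I) → op n ω a ∈ I

end

section lemmas

variable {Ω : ℕ → Type v} {k : Type u} [CommRing k]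
  {A : Type w} [AddCommGroup A] [Module k A] {B : Type*} [AddCommGroup B] [Module k B]

theorem eval_hom {op : Ops Ω k A} {op' : Ops Ω k B} (φ : A →ₗ[k] B)
    (h : ∀ n (ω : Ω n) (a : Fin n → A), φ (op n ω a) = op' n ω (fun i => φ (a i)))
    (a : ℕ → A) (t : Monom Ω) : φ (t.eval op a) = t.eval op' (fun i => φ (a i)) := by
  induction t with
  | var i => rfl
  | app n ω t ih =>
    simp only [Monom.eval]
    rw [h]
    congr 1
    funext l
    exact ih l

theorem evalPoly_hom {op : Ops Ω k A} {op' : Ops Ω k B} (φ : A →ₗ[k] B)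
    (h : ∀ n (ω : Ω n) (a : Fin n → A), φ (op n ω a) = op' n ω (fun i => φ (a i)))
    (a : ℕ → A) (f : Monom Ω →₀ k) :
    φ (evalPoly op a f) = evalPoly op' (fun i => φ (a i)) f := by
  unfold evalPoly
  rw [map_finsuppSum]
  refine Finsupp.sum_congr fun t _ => ?_
  rw [map_smul, eval_hom φ h]

theorem isIdentity_of_surj {op : Ops Ω k A} {op' : Ops Ω k B} (φ : A →ₗ[k] B)
    (h : ∀ n (ω : Ω n) (a : Fin n → A), φ (op n ω a) = op' n ω (fun i => φ (a i)))
    (hs : Function.Surjective φ) {f : Monom Ω →₀ k} (hf : IsIdentity op f) :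
    IsIdentity op' f := by
  intro b
  choose a ha using fun i => hs (b i)
  have h1 := evalPoly_hom φ h a f
  rw [hf a, map_zero] at h1
  have h2 : (fun i => φ (a i)) = b := funext ha
  rw [h2] at h1
  exact h1.symm

end lemmas

end Q12.Omega
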